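import Mathlib

set_option autoImplicit false

/-!
# Counting zeros of trilinear forms over finite fields
-/

namespace Pool.Agent.E8helper75.SG

open Finset

section lin
variable {κ : Type} [Field κ] [Finite κ] {C : Type} [Fintype C]

lemma card_fun : Nat.card (C → κ) = Nat.card κ ^ Fintype.card C := by
  rw [Nat.card_fun, Nat.card_eq_fintype_card (α := C)]

lemma card_ker (b : C → κ) (hb : b ≠ 0) :
    Nat.card {z : C → κ // ∑ k, z k * b k = 0} * Nat.card κ = Nat.card κ ^ Fintype.card C := by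
  classical
  obtain ⟨k0, hk0⟩ := Function.ne_iff.1 hb
  have hk0' : b k0 ≠ 0 := hk0
  rw [← card_fun (κ := κ) (C := C), ← Nat.card_prod]
  refine Nat.card_congr ⟨fun x k => x.1.1 k + x.2 * Pi.single (M := fun _ => κ) k0 (b k0)⁻¹ k,
    fun z => (⟨fun k => z k - (∑ l, z l * b l) * Pi.single (M := fun _ => κ) k0 (b k0)⁻¹ k, ?_⟩,
      ∑ l, z l * b l), ?_, ?_⟩
  · simp only [sub_mul, sum_sub_distrib, mul_assoc]
    rw [← mul_sum]
    have h1 : ∑ k, Pi.single (M := fun _ => κ) k0 (b k0)⁻¹ k * b k = 1 := by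
      rw [sum_eq_single k0]
      · rw [Pi.single_eq_same, inv_mul_cancel₀ hk0']
      · intro k _ hk
        rw [Pi.single_eq_of_ne hk, zero_mul]
      · intro h
        exact absurd (mem_univ _) h
    rw [h1, mul_one, sub_self]
  · rintro ⟨⟨z, hz⟩, t⟩
    have h1 : ∑ k, Pi.single (M := fun _ => κ) k0 (b k0)⁻¹ k * b k = 1 := by
      rw [sum_eq_single k0]
      · rw [Pi.single_eq_same, inv_mul_cancel₀ hk0']
      · intro k _ hk
        rw [Pi.single_eq_of_ne hk, zero_mul]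
      · intro h
        exact absurd (mem_univ _) h
    have h2 : ∑ l, (z l + t * Pi.single (M := fun _ => κ) k0 (b k0)⁻¹ l) * b l = t := by
      simp only [add_mul, sum_add_distrib, mul_assoc]
      rw [← mul_sum, h1, hz, mul_one, zero_add]
    simp only [h2, Prod.mk.injEq, and_true]
    refine Subtype.ext (funext fun k => ?_)
    simp
  · intro z
    funext k
    simp

lemma card_ker_ne (b : C → κ) (hb : b ≠ 0) :
    (Nat.card {z : C → κ // z ≠ 0 ∧ ∑ k, z k * b k = 0} + 1) * Nat.card κ =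
      Nat.card κ ^ Fintype.card C := by
  classical
  rw [← card_ker b hb]
  congr 1
  have h1 : Nat.card {z : C → κ // ∑ k, z k * b k = 0} =
      Nat.card (Option {z : C → κ // z ≠ 0 ∧ ∑ k, z k * b k = 0}) := by
    refine Nat.card_congr ⟨fun z => if h : z.1 = 0 then none else some ⟨z.1, h, z.2⟩,
      fun o => match o with
        | none => ⟨0, by simp⟩
        | some z => ⟨z.1, z.2.2⟩, ?_, ?_⟩
    · rintro ⟨z, hz⟩
      by_cases h : z = 0
      · simp [h]
      · simp [h]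
    · rintro (_ | ⟨z, hz0, hz⟩)
      · simp
      · simp [hz0]
  rw [h1, Finite.card_option]

lemma card_ne_zero : Nat.card {z : C → κ // z ≠ 0} + 1 = Nat.card κ ^ Fintype.card C := by
  classical
  rw [← card_fun (κ := κ) (C := C)]
  have h1 : Nat.card (C → κ) = Nat.card (Option {z : C → κ // z ≠ 0}) := by
    refine Nat.card_congr ⟨fun z => if h : z = 0 then none else some ⟨z, h⟩,
      fun o => match o with
        | none => 0
        | some z => z.1, ?_, ?_⟩
    · intro z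
      by_cases h : z = 0
      · simp [h]
      · simp [h]
    · rintro (_ | ⟨z, hz0⟩)
      · simp
      · simp [hz0]
  rw [h1, Finite.card_option]

end lin

section tri
variable {κ : Type} [Field κ] {A B C : Type} [Fintype A] [Fintype B] [Fintype C]

/-- the value of the trilinear form -/
def tri (T : A → B → C → ℤ) (x : A → κ) (y : B → κ) (z : C → κ) : κ :=
  ∑ a, ∑ b, ∑ c, (T a b c : κ) * x a * y b * z c

/-- the system of bilinear forms -/
def bil (T : A → B → C → ℤ) (x : A → κ) (y : B → κ) (c : C) : κ :=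
  ∑ a, ∑ b, (T a b c : κ) * x a * y b

lemma tri_eq (T : A → B → C → ℤ) (x : A → κ) (y : B → κ) (z : C → κ) :
    tri T x y z = ∑ c, z c * bil T x y c := by
  unfold tri bil
  simp only [mul_sum]
  rw [sum_comm' (t' := univ) (s' := fun _ => univ) (by simp)]
  have h1 : ∀ b, ∑ a, ∑ c, (T a b c : κ) * x a * y b * z c =
      ∑ c, ∑ a, (T a b c : κ) * x a * y b * z c := fun b => sum_comm
  simp_rw [h1]
  rw [sum_comm]
  refine sum_congr rfl fun c _ => ?_
  rw [sum_comm]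
  refine sum_congr rfl fun a _ => sum_congr rfl fun b _ => ?_
  ring

/-- **Zeros of a trilinear form and of the system of bilinear forms.** -/
theorem card_tri [Finite κ] (T : A → B → C → ℤ) {m : ℕ} (hm : Fintype.card C = m + 1) :
    (Nat.card {t : (A → κ) × (B → κ) × (C → κ) //
        t.1 ≠ 0 ∧ t.2.1 ≠ 0 ∧ t.2.2 ≠ 0 ∧ tri T t.1 t.2.1 t.2.2 = 0} : ℤ) =
      ((Nat.card κ : ℤ) ^ Fintype.card A - 1) * ((Nat.card κ : ℤ) ^ Fintype.card B - 1) *
        ((Nat.card κ : ℤ) ^ m - 1) +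
      (Nat.card {s : (A → κ) × (B → κ) // s.1 ≠ 0 ∧ s.2 ≠ 0 ∧ ∀ c, bil T s.1 s.2 c = 0} : ℤ) *
        ((Nat.card κ : ℤ) ^ m * ((Nat.card κ : ℤ) - 1)) := by
  classical
  let _ : Fintype κ := Fintype.ofFinite κ
  set q := Nat.card κ with hq
  have hq0 : 0 < q := Nat.card_pos
  -- fibres
  have h1 : Nat.card {t : (A → κ) × (B → κ) × (C → κ) //
        t.1 ≠ 0 ∧ t.2.1 ≠ 0 ∧ t.2.2 ≠ 0 ∧ tri T t.1 t.2.1 t.2.2 = 0} =
      ∑ s : {s : (A → κ) × (B → κ) // s.1 ≠ 0 ∧ s.2 ≠ 0},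
        Nat.card {z : C → κ // z ≠ 0 ∧ ∑ k, z k * bil T s.1.1 s.1.2 k = 0} := by
    rw [← Nat.card_sigma]
    refine Nat.card_congr ⟨fun t => ⟨⟨(t.1.1, t.1.2.1), t.2.1, t.2.2.1⟩,
      ⟨t.1.2.2, t.2.2.2.1, by rw [← tri_eq]; exact t.2.2.2.2⟩⟩,
      fun s => ⟨(s.1.1.1, s.1.1.2, s.2.1), s.1.2.1, s.1.2.2, s.2.2.1, by
        rw [tri_eq]; exact s.2.2.2⟩, fun t => rfl, fun s => rfl⟩
  have h2 : ∀ s : {s : (A → κ) × (B → κ) // s.1 ≠ 0 ∧ s.2 ≠ 0},
      (Nat.card {z : C → κ // z ≠ 0 ∧ ∑ k, z k * bil T s.1.1 s.1.2 k = 0} : ℤ) =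
        ((q : ℤ) ^ m - 1) + if (∀ c, bil T s.1.1 s.1.2 c = 0) then (q : ℤ) ^ m * ((q : ℤ) - 1)
          else 0 := by
    intro s
    split_ifs with h
    · have h3 : Nat.card {z : C → κ // z ≠ 0 ∧ ∑ k, z k * bil T s.1.1 s.1.2 k = 0} =
          Nat.card {z : C → κ // z ≠ 0} := by
        refine Nat.card_congr (Equiv.subtypeEquivRight fun z => ?_)
        simp [h]
      rw [h3]
      have h4 := card_ne_zero (κ := κ) (C := C)
      rw [hm, ← hq] at h4
      have h5 : (Nat.card {z : C → κ // z ≠ 0} : ℤ) + 1 = (q : ℤ) ^ (m + 1) := by exact_mod_cast h4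
      rw [pow_succ] at h5
      linarith
    · have hb : bil T s.1.1 s.1.2 ≠ 0 := fun h' => h fun c => congrFun h' c
      have h4 := card_ker_ne (κ := κ) (bil T s.1.1 s.1.2) hb
      rw [hm, ← hq, pow_succ] at h4
      have h5 := Nat.eq_of_mul_eq_mul_right hq0 h4
      have h6 : (Nat.card {z : C → κ // z ≠ 0 ∧ ∑ k, z k * bil T s.1.1 s.1.2 k = 0} : ℤ) + 1 =
          (q : ℤ) ^ m := by exact_mod_cast h5
      linarith
  rw [h1]
  push_cast
  rw [sum_congr rfl fun s _ => h2 s, sum_add_distrib, sum_const, card_univ, nsmul_eq_mul]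
  congr 1
  · congr 1
    have h3 : Fintype.card {s : (A → κ) × (B → κ) // s.1 ≠ 0 ∧ s.2 ≠ 0} =
        Nat.card {z : A → κ // z ≠ 0} * Nat.card {z : B → κ // z ≠ 0} := by
      rw [← Nat.card_prod, ← Nat.card_eq_fintype_card]
      exact Nat.card_congr ⟨fun s => (⟨s.1.1, s.2.1⟩, ⟨s.1.2, s.2.2⟩),
        fun s => ⟨(s.1.1, s.2.1), s.1.2, s.2.2⟩, fun _ => rfl, fun _ => rfl⟩
    rw [h3]
    have h4 := card_ne_zero (κ := κ) (C := A)
    have h5 := card_ne_zero (κ := κ) (C := B)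
    rw [← hq] at h4 h5
    have h6 : (Nat.card {z : A → κ // z ≠ 0} : ℤ) = (q : ℤ) ^ Fintype.card A - 1 := by
      have : (Nat.card {z : A → κ // z ≠ 0} : ℤ) + 1 = (q : ℤ) ^ Fintype.card A := by
        exact_mod_cast h4
      linarith
    have h7 : (Nat.card {z : B → κ // z ≠ 0} : ℤ) = (q : ℤ) ^ Fintype.card B - 1 := by
      have : (Nat.card {z : B → κ // z ≠ 0} : ℤ) + 1 = (q : ℤ) ^ Fintype.card B := by
        exact_mod_cast h5
      linarith
    push_cast
    rw [h6, h7]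
  · rw [← sum_filter, sum_const, nsmul_eq_mul]
    congr 1
    norm_cast
    rw [← Fintype.card_subtype, ← Nat.card_eq_fintype_card]
    exact Nat.card_congr ⟨fun s => ⟨s.1.1, s.1.2.1, s.1.2.2, s.2⟩,
      fun s => ⟨⟨s.1, s.2.1, s.2.2.1⟩, s.2.2.2⟩, fun _ => rfl, fun _ => rfl⟩

end tri

end Pool.Agent.E8helper75.SG
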