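import Mathlib

/-!
# L-functions of projective schemes over `ℤ` and hyperplane sections of Segre varieties: definitions
-/

set_option autoImplicit false

namespace Pool.Agent.E8helper75.SG

open Finset Filter Topology

/-- A system `X` of homogeneous equations with integral coefficients, in the variables `u_j`, `j ∈ σ`,
defines a projective scheme over `ℤ`.  For a field `κ` with `q` elements this is `(q - 1)` times the
number of its points with coordinates in `κ`: the number of the nonzero solutions. -/
noncomputable def cone {σ : Type} (X : Set (MvPolynomial σ ℤ)) (κ : Type) [Field κ] : ℕ :=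
  Nat.card {u : σ → κ // u ≠ 0 ∧ ∀ f ∈ X, MvPolynomial.aeval u f = 0}

/-- The equations of the Segre variety `ℙ(A) × ℙ(B) × ℙ(C)`, the product of three projective spaces
with the homogeneous coordinates `x_a`, `y_b`, `z_c`, in the projective space with the coordinates
`u_{abc} = x_a y_b z_c`. -/
def segre (A B C : Type) : Set (MvPolynomial (A × B × C) ℤ) :=
  {f | ∃ (a a' : A) (b b' : B) (c c' : C),
    f = MvPolynomial.X (a, b, c) * MvPolynomial.X (a', b', c') -
        MvPolynomial.X (a', b, c) * MvPolynomial.X (a, b', c') ∨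
    f = MvPolynomial.X (a, b, c) * MvPolynomial.X (a', b', c') -
        MvPolynomial.X (a, b', c) * MvPolynomial.X (a', b, c')}

/-- The hyperplane section of the Segre variety defined by the linear form `∑ T_{abc} u_{abc}`, that
is, by the trilinear form `∑ T_{abc} x_a y_b z_c`. -/
noncomputable def segreSection {A B C : Type} [Fintype A] [Fintype B] [Fintype C]
    (T : A → B → C → ℤ) : Set (MvPolynomial (A × B × C) ℤ) :=
  insert (∑ a, ∑ b, ∑ c, MvPolynomial.C (T a b c) * MvPolynomial.X (a, b, c)) (segre A B C)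

/-- `β` is the family of the eigenvalues of the geometric Frobenius at `p` on `H^i(X)`: there are
finite multisets `β_k` of complex numbers of absolute value `p^{k/2}`, `0 ≤ k ≤ D`, with `β_i = β`,
such that for every field `κ` with `p^e` elements the number of the points of `X` with coordinates in
`κ` is `∑ (-1)^k ∑_{z ∈ β_k} z^e`.  By the theorem of Deligne such `β_k` exist at almost all primes if
the variety is smooth over `ℚ`.  They are unique. -/
def IsFrobenius {σ : Type} (X : Set (MvPolynomial σ ℤ)) (i : ℕ) (p : Nat.Primes)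
    (β : Multiset ℂ) : Prop :=
  ∃ (D : ℕ) (b : ℕ → Multiset ℂ), i ≤ D ∧ b i = β ∧
    (∀ k, ∀ z ∈ b k, ‖z‖ = ((p : ℕ) : ℝ) ^ ((k : ℝ) / 2)) ∧
    ∀ (κ : Type) [Field κ] [Finite κ] (e : ℕ), Nat.card κ = (p : ℕ) ^ e →
      (cone X κ : ℂ) = (((p : ℕ) : ℂ) ^ e - 1) *
        ∑ k ∈ range (D + 1), (-1 : ℂ) ^ k * ((b k).map (fun z => z ^ e)).sum

/-- The Euler factors of `L(H^i(X), s)`: `∏_{z ∈ β_p} (1 - z p^{-s})⁻¹`, where `β_p` is the family of
the eigenvalues of Frobenius for almost all primes `p`, and at the other primes `β_p` is arbitrary,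
for instance the family of the eigenvalues of Frobenius on the inertia invariants; the number of the
elements of `β_p` is bounded. -/
def IsSystem {σ : Type} (X : Set (MvPolynomial σ ℤ)) (i : ℕ) (β : Nat.Primes → Multiset ℂ) : Prop :=
  (∀ᶠ p in cofinite, IsFrobenius X i p (β p)) ∧ ∃ N : ℕ, ∀ p, (β p).card ≤ N

/-- The `L`-function `∏_p ∏_{z ∈ β_p} (1 - z p^{-s})⁻¹`. -/
noncomputable def LFun (β : Nat.Primes → Multiset ℂ) (s : ℂ) : ℂ :=
  ∏' p : Nat.Primes, ((β p).map (fun z => 1 - z * ((p : ℕ) : ℂ) ^ (-s))).prod⁻¹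

/-- The `L`-function, defined by the Euler product for `Re s > i/2 + 1`, has a meromorphic
continuation to `ℂ`. -/
def Continues (i : ℕ) (β : Nat.Primes → Multiset ℂ) : Prop :=
  ∃ F : ℂ → ℂ, (∀ s, MeromorphicAt F s) ∧ ∀ s : ℂ, (i : ℝ) / 2 + 1 < s.re → F s = LFun β s

/-- The statement of the question Q1: the `L`-function, defined by the Euler product for
`Re s > i/2 + 1`, has a meromorphic continuation to `ℂ` which is holomorphic except possibly for a pole
at `s = i/2 + 1`, and such a pole can occur only when `i` is even. -/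
def Q1 (i : ℕ) (β : Nat.Primes → Multiset ℂ) : Prop :=
  ∃ F : ℂ → ℂ, (∀ s, MeromorphicAt F s) ∧
    (∀ s : ℂ, (Even i → s ≠ (i : ℂ) / 2 + 1) → AnalyticAt ℂ F s) ∧
    ∀ s : ℂ, (i : ℝ) / 2 + 1 < s.re → F s = LFun β s

/-- The number of the triples `(j₁, j₂, j₃)` with `0 ≤ j₁, j₂ < a`, `0 ≤ j₃ < m` of sum `j`: the rank
of `H^{2j}` of the product of the projective spaces of dimensions `a - 1`, `a - 1` and `m - 1`. -/
def rankTate (a m j : ℕ) : ℕ :=
  ((range a ×ˢ range a ×ˢ range m).filter fun w => w.1 + w.2.1 + w.2.2 = j).card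

/-- The family of the numbers `p^m z`, `z ∈ β_p`, and, if `i` is even, the number `p^{i/2 + m}`, repeated
`rankTate a m (i/2 + m)` times. -/
noncomputable def shift (a m i : ℕ) (β : Nat.Primes → Multiset ℂ) (p : Nat.Primes) : Multiset ℂ :=
  (β p).map (fun z => ((p : ℕ) : ℂ) ^ m * z) +
    if Even i then Multiset.replicate (rankTate a m (i / 2 + m)) (((p : ℕ) : ℂ) ^ (i / 2 + m)) else 0

end Pool.Agent.E8helper75.SG
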