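import Pool.Agent.E8helper75.SG.LF

set_option autoImplicit false

/-!
# The eigenvalues of Frobenius of the hyperplane section, the continuation
-/

namespace Pool.Agent.E8helper75.SG

open Finset Filter Topology

lemma sum_rankTate (a m M : ℕ) (hM : 2 * a + m ≤ M) (x : ℂ) :
    ∑ j ∈ range M, (rankTate a m j : ℂ) * x ^ j =
      (∑ j ∈ range a, x ^ j) ^ 2 * ∑ j ∈ range m, x ^ j := by
  classical
  have h1 : (∑ j ∈ range a, x ^ j) ^ 2 * ∑ j ∈ range m, x ^ j =
      ∑ w ∈ range a ×ˢ range a ×ˢ range m, x ^ (w.1 + w.2.1 + w.2.2) := by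
    simp only [sum_product, pow_add, ← mul_sum, ← sum_mul]
    ring
  rw [h1]
  have h2 : ∀ w ∈ range a ×ˢ range a ×ˢ range m, w.1 + w.2.1 + w.2.2 ∈ range M := by
    intro w hw
    simp only [mem_product, mem_range] at hw ⊢
    omega
  rw [← sum_fiberwise_of_maps_to h2]
  refine sum_congr rfl fun j _ => ?_
  rw [rankTate, ← nsmul_eq_mul, ← sum_const]
  refine sum_congr rfl fun w hw => ?_
  rw [(mem_filter.1 hw).2]

lemma sum_even (M : ℕ) (g : ℕ → ℂ) :
    ∑ k ∈ range (2 * M), (if Even k then g (k / 2) else 0) = ∑ j ∈ range M, g j := by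
  induction M with
  | zero => simp
  | succ M ih =>
    rw [show 2 * (M + 1) = 2 * M + 1 + 1 by ring, sum_range_succ, sum_range_succ, ih,
      sum_range_succ]
    have h1 : Even (2 * M) := even_two_mul M
    have h2 : ¬ Even (2 * M + 1) := by
      rw [Nat.not_even_iff_odd]
      exact odd_two_mul_add_one M
    rw [if_pos h1, if_neg h2, add_zero, Nat.mul_div_cancel_left _ two_pos]

lemma sum_shift (m D M : ℕ) (hM : D + 2 * m + 1 ≤ M) (c : ℕ → ℂ) :
    ∑ k ∈ range M, (if 2 * m ≤ k ∧ k ≤ D + 2 * m then (-1 : ℂ) ^ k * c (k - 2 * m) else 0) =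
      ∑ k ∈ range (D + 1), (-1 : ℂ) ^ k * c k := by
  rw [← sum_filter]
  have h1 : (range M).filter (fun k => 2 * m ≤ k ∧ k ≤ D + 2 * m) = Ico (2 * m) (2 * m + (D + 1)) := by
    ext k
    simp only [mem_filter, mem_range, mem_Ico]
    omega
  rw [h1, sum_Ico_eq_sum_range, Nat.add_sub_cancel_left]
  refine sum_congr rfl fun k _ => ?_
  rw [pow_add, pow_mul, Nat.add_sub_cancel_left]
  norm_num

/-- the eigenvalues of Frobenius of the hyperplane section -/
theorem frob {σ τ : Type} {X : Set (MvPolynomial σ ℤ)} {W : Set (MvPolynomial τ ℤ)} {a m : ℕ}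
    (hW : ∀ (κ : Type) [Field κ] [Finite κ],
        (cone W κ : ℤ) * ((Nat.card κ : ℤ) - 1) ^ 2 =
          ((Nat.card κ : ℤ) ^ a - 1) ^ 2 * ((Nat.card κ : ℤ) ^ m - 1) +
          (Nat.card κ : ℤ) ^ m * ((Nat.card κ : ℤ) - 1) ^ 2 * cone X κ)
    {i : ℕ} {β : Nat.Primes → Multiset ℂ} {p : Nat.Primes} (h : IsFrobenius X i p (β p)) :
    IsFrobenius W (i + 2 * m) p (shift a m i β p) := by
  classical
  obtain ⟨D, b, hi, hbi, hb, hcount⟩ := h
  set M : ℕ := D + 2 * m + 2 * a + m + 1 with hM
  have hp0 : (0 : ℝ) < ((p : ℕ) : ℝ) := by exact_mod_cast p.2.pos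
  refine ⟨2 * M - 1, fun k => (if 2 * m ≤ k ∧ k ≤ D + 2 * m then
      (b (k - 2 * m)).map (fun z => ((p : ℕ) : ℂ) ^ m * z) else 0) +
    if Even k then Multiset.replicate (rankTate a m (k / 2)) (((p : ℕ) : ℂ) ^ (k / 2)) else 0,
    by omega, ?_, ?_, ?_⟩
  · have h1 : 2 * m ≤ i + 2 * m ∧ i + 2 * m ≤ D + 2 * m := by omega
    simp only [if_pos h1, Nat.add_sub_cancel, hbi, shift]
    congr 1
    have h2 : (i + 2 * m) / 2 = i / 2 + m := by omega
    have h3 : Even (i + 2 * m) ↔ Even i := by
      rw [Nat.even_add]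
      simp
    simp only [h2, h3]
  · intro k z hz
    rw [Multiset.mem_add] at hz
    rcases hz with hz | hz
    · split_ifs at hz with hk
      · rw [Multiset.mem_map] at hz
        obtain ⟨w, hw, rfl⟩ := hz
        rw [norm_mul, norm_pow, Complex.norm_natCast, hb _ w hw, ← Real.rpow_natCast,
          ← Real.rpow_add hp0]
        congr 1
        rw [Nat.cast_sub hk.1]
        push_cast
        ring
      · exact absurd hz (Multiset.notMem_zero _)
    · split_ifs at hz with hk
      · rw [Multiset.eq_of_mem_replicate hz, norm_pow, Complex.norm_natCast, ← Real.rpow_natCast]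
        congr 1
        obtain ⟨j, rfl⟩ := hk
        have h4 : (j + j) / 2 = j := by omega
        rw [h4]
        push_cast
        ring
      · exact absurd hz (Multiset.notMem_zero _)
  · intro κ _ _ e he
    have h1 := hcount κ e he
    have h2 := hW κ
    rw [he] at h2
    have hq1 : 1 < Nat.card κ := by
      have : Nontrivial κ := inferInstance
      exact Finite.one_lt_card
    set q : ℂ := ((p : ℕ) : ℂ) ^ e with hq
    have hq0 : q - 1 ≠ 0 := by
      rw [hq, sub_ne_zero]
      have h3 : ((Nat.card κ : ℕ) : ℂ) ≠ 1 := by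
        exact_mod_cast hq1.ne'
      rw [he] at h3
      exact_mod_cast h3
    have h3 : (cone W κ : ℂ) * (q - 1) ^ 2 = (q ^ a - 1) ^ 2 * (q ^ m - 1) +
        q ^ m * (q - 1) ^ 2 * cone X κ := by
      have := congrArg (fun x : ℤ => (x : ℂ)) h2
      push_cast at this
      exact this
    have ga : (q - 1) * ∑ j ∈ range a, q ^ j = q ^ a - 1 := mul_geom_sum q a
    have gm : (q - 1) * ∑ j ∈ range m, q ^ j = q ^ m - 1 := mul_geom_sum q m
    have h4 : (cone W κ : ℂ) = (q - 1) * ((∑ j ∈ range a, q ^ j) ^ 2 * ∑ j ∈ range m, q ^ j) +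
        q ^ m * cone X κ := by
      refine mul_right_cancel₀ (pow_ne_zero 2 hq0) ?_
      rw [h3, ← ga, ← gm]
      ring
    rw [h4, h1, ← sum_rankTate a m M (by omega)]
    have h5 : ∑ k ∈ range (2 * M - 1 + 1), (-1 : ℂ) ^ k *
        (((((if 2 * m ≤ k ∧ k ≤ D + 2 * m then
          (b (k - 2 * m)).map (fun z => ((p : ℕ) : ℂ) ^ m * z) else 0) +
          if Even k then Multiset.replicate (rankTate a m (k / 2)) (((p : ℕ) : ℂ) ^ (k / 2)) else 0)).map
            (fun z => z ^ e)).sum) =
        ∑ k ∈ range (2 * M), (if 2 * m ≤ k ∧ k ≤ D + 2 * m then (-1 : ℂ) ^ k *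
          (fun k => q ^ m * ((b k).map (fun z => z ^ e)).sum) (k - 2 * m) else 0) +
        ∑ k ∈ range (2 * M), if Even k then (fun j => (rankTate a m j : ℂ) * q ^ j) (k / 2) else 0 := by
      rw [Nat.sub_add_cancel (by omega), ← sum_add_distrib]
      refine sum_congr rfl fun k _ => ?_
      rw [Multiset.map_add, Multiset.sum_add, mul_add]
      congr 1
      · split_ifs with hk
        · congr 1
          rw [Multiset.map_map]
          have h6 : ((fun z : ℂ => z ^ e) ∘ fun z => ((p : ℕ) : ℂ) ^ m * z) =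
              fun z => q ^ m * z ^ e := by
            funext z
            simp only [Function.comp_apply, hq]
            rw [mul_pow, ← pow_mul, ← pow_mul, mul_comm m e]
          rw [h6, Multiset.sum_map_mul_left]
        · simp
      · split_ifs with hk
        · rw [hk.neg_one_pow, one_mul, Multiset.map_replicate, Multiset.sum_replicate,
            nsmul_eq_mul]
          simp only [hq]
          rw [← pow_mul, ← pow_mul, mul_comm e]
        · simp
    rw [h5, sum_shift m D (2 * M) (by omega) (fun k => q ^ m * ((b k).map (fun z => z ^ e)).sum),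
      sum_even M (fun j => (rankTate a m j : ℂ) * q ^ j)]
    have h6 : ∑ k ∈ range (D + 1), (-1 : ℂ) ^ k * (q ^ m * ((b k).map (fun z => z ^ e)).sum) =
        q ^ m * ∑ k ∈ range (D + 1), (-1 : ℂ) ^ k * ((b k).map (fun z => z ^ e)).sum := by
      rw [mul_sum]
      refine sum_congr rfl fun k _ => ?_
      ring
    rw [h6]
    ring

/-- the system of Euler factors of the hyperplane section -/
theorem system {σ τ : Type} {X : Set (MvPolynomial σ ℤ)} {W : Set (MvPolynomial τ ℤ)} {a m : ℕ}
    (hW : ∀ (κ : Type) [Field κ] [Finite κ],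
        (cone W κ : ℤ) * ((Nat.card κ : ℤ) - 1) ^ 2 =
          ((Nat.card κ : ℤ) ^ a - 1) ^ 2 * ((Nat.card κ : ℤ) ^ m - 1) +
          (Nat.card κ : ℤ) ^ m * ((Nat.card κ : ℤ) - 1) ^ 2 * cone X κ)
    {i : ℕ} {β : Nat.Primes → Multiset ℂ} (h : IsSystem X i β) :
    IsSystem W (i + 2 * m) (shift a m i β) := by
  obtain ⟨h1, N, hN⟩ := h
  refine ⟨h1.mono fun p hp => frob hW hp, N + rankTate a m (i / 2 + m), fun p => ?_⟩
  unfold shift
  rw [Multiset.card_add, Multiset.card_map]
  refine add_le_add (hN p) ?_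
  split_ifs
  · rw [Multiset.card_replicate]
  · simp

/-- **The continuations.** -/
theorem continuation {σ : Type} {X : Set (MvPolynomial σ ℤ)} {i : ℕ} {β : Nat.Primes → Multiset ℂ}
    (h : IsSystem X i β) (a m : ℕ) :
    (Odd i → (Q1 i β ↔ Q1 (i + 2 * m) (shift a m i β))) ∧
    (Q1 i β → Q1 (i + 2 * m) (shift a m i β)) ∧
    (Continues i β ↔ Continues (i + 2 * m) (shift a m i β)) := by
  set t := rankTate a m (i / 2 + m) with ht
  -- the zeta factor
  set ζ' : ℂ → ℂ := fun s =>
    if Even i then riemannZeta (s - ((i / 2 + m : ℕ) : ℂ)) ^ t else 1 with hζ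
  have hmero : ∀ s, MeromorphicAt ζ' s := by
    intro s
    simp only [hζ]
    by_cases hi : Even i
    · simp only [if_pos hi]
      have h1 : MeromorphicAt (riemannZeta ∘ (· - ((i / 2 + m : ℕ) : ℂ))) s :=
        meromorphicAt_comp_sub_const_iff_meromorphicAt.2 (Pool.Agent.TH958.An.zeta_mero _)
      exact h1.pow t
    · simp only [if_neg hi]
      exact MeromorphicAt.const _ _
  have hana : ∀ s : ℂ, (Even i → s ≠ ((i + 2 * m : ℕ) : ℂ) / 2 + 1) → AnalyticAt ℂ ζ' s := by
    intro s hs
    simp only [hζ]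
    by_cases hi : Even i
    · simp only [if_pos hi]
      have hne : s - ((i / 2 + m : ℕ) : ℂ) ≠ 1 := by
        intro h1
        refine hs hi ?_
        obtain ⟨j, rfl⟩ := hi
        have h4 : (j + j) / 2 = j := by omega
        rw [h4] at h1
        push_cast at h1 ⊢
        linear_combination h1
      have h1 : AnalyticAt ℂ riemannZeta (s - ((i / 2 + m : ℕ) : ℂ)) := by
        have hd : DifferentiableOn ℂ riemannZeta {s | s ≠ 1} := fun s hs =>
          (differentiableAt_riemannZeta hs).differentiableWithinAt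
        exact hd.analyticAt (isOpen_ne.mem_nhds hne)
      exact (AnalyticAt.fun_comp (f := fun s : ℂ => s - ((i / 2 + m : ℕ) : ℂ)) (g := riemannZeta) h1
        (analyticAt_id.sub analyticAt_const)).pow t
    · simp only [if_neg hi]
      exact analyticAt_const
  have hL : ∀ s : ℂ, ((i + 2 * m : ℕ) : ℝ) / 2 + 1 < s.re →
      LFun (shift a m i β) s = LFun β (s - m) * ζ' s := fun s hs => LFun_shift h a m hs
  have hre : ∀ s : ℂ, ((i + 2 * m : ℕ) : ℝ) / 2 + 1 < s.re → (i : ℝ) / 2 + 1 < (s - m).re := by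
    intro s hs
    rw [Complex.sub_re, Complex.natCast_re]
    push_cast at hs
    linarith
  have hre' : ∀ s : ℂ, (i : ℝ) / 2 + 1 < s.re → ((i + 2 * m : ℕ) : ℝ) / 2 + 1 < (s + m).re := by
    intro s hs
    rw [Complex.add_re, Complex.natCast_re]
    push_cast
    linarith
  have hQ : Q1 i β → Q1 (i + 2 * m) (shift a m i β) := by
    rintro ⟨F, hF1, hF2, hF3⟩
    refine ⟨fun s => F (s - m) * ζ' s, fun s => ?_, fun s hs => ?_, fun s hs => ?_⟩
    · exact (meromorphicAt_comp_sub_const_iff_meromorphicAt.2 (hF1 _)).mul (hmero s)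
    · have hpar : Even (i + 2 * m) ↔ Even i := by
        rw [Nat.even_add]
        simp
      rw [hpar] at hs
      refine AnalyticAt.mul ?_ (hana s hs)
      refine AnalyticAt.fun_comp (f := fun s : ℂ => s - (m : ℂ)) (g := F) (hF2 _ fun hi h1 => ?_)
        (analyticAt_id.sub analyticAt_const)
      refine hs hi ?_
      push_cast
      linear_combination h1
    · beta_reduce
      rw [hL s hs, hF3 _ (hre s hs)]
  refine ⟨fun hodd => ⟨hQ, ?_⟩, hQ, ?_, ?_⟩
  · rintro ⟨F, hF1, hF2, hF3⟩
    have hne : ¬ Even i := Nat.not_even_iff_odd.2 hodd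
    have hpar : ¬ Even (i + 2 * m) := by
      rw [Nat.even_add]
      simpa using hne
    refine ⟨fun s => F (s + m), fun s => ?_, fun s hs => ?_, fun s hs => ?_⟩
    · exact meromorphicAt_comp_add_const_iff_meromorphicAt.2 (hF1 _)
    · refine AnalyticAt.fun_comp (f := fun s : ℂ => s + (m : ℂ)) (g := F)
        (hF2 _ fun hi => absurd hi hpar) (analyticAt_id.add analyticAt_const)
    · beta_reduce
      rw [hF3 _ (hre' s hs), hL _ (hre' s hs), add_sub_cancel_right]
      simp only [hζ, if_neg hne, mul_one]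
  · rintro ⟨F, hF1, hF3⟩
    refine ⟨fun s => F (s - m) * ζ' s, fun s => ?_, fun s hs => ?_⟩
    · exact (meromorphicAt_comp_sub_const_iff_meromorphicAt.2 (hF1 _)).mul (hmero s)
    · beta_reduce
      rw [hL s hs, hF3 _ (hre s hs)]
  · rintro ⟨F, hF1, hF3⟩
    refine ⟨fun s => F (s + m) * (ζ' (s + m))⁻¹, fun s => ?_, fun s hs => ?_⟩
    · have h1 : MeromorphicAt (F ∘ (· + (m : ℂ))) s :=
        meromorphicAt_comp_add_const_iff_meromorphicAt.2 (hF1 _)
      have h2 : MeromorphicAt (ζ' ∘ (· + (m : ℂ))) s :=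
        meromorphicAt_comp_add_const_iff_meromorphicAt.2 (hmero _)
      exact h1.mul h2.inv
    · have hne : ζ' (s + m) ≠ 0 := by
        simp only [hζ]
        split_ifs with hi
        · refine pow_ne_zero _ (riemannZeta_ne_zero_of_one_lt_re ?_)
          obtain ⟨j, rfl⟩ := hi
          have h4 : (j + j) / 2 = j := by omega
          rw [h4, Complex.sub_re, Complex.add_re, Complex.natCast_re, Complex.natCast_re]
          push_cast at hs ⊢
          linarith
        · exact one_ne_zero
      beta_reduce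
      rw [hF3 _ (hre' s hs), hL _ (hre' s hs), add_sub_cancel_right, mul_assoc,
        mul_inv_cancel₀ hne, mul_one]

end Pool.Agent.E8helper75.SG
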