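import Pool.Agent.E8helper75.SG.Defs
import Pool.Agent.TH958.An.Zeta

set_option autoImplicit false

/-!
# The L-functions
-/

namespace Pool.Agent.E8helper75.SG

open Finset Filter Topology

/-- an Euler factor is close to `1` -/
lemma prod_bound (s : Multiset ℂ) {ε : ℝ} (hε0 : 0 ≤ ε) (hε : ε ≤ 1 / 2) (h : ∀ z ∈ s, ‖z‖ ≤ ε) :
    ‖((s.map fun z => 1 - z).prod)⁻¹ - 1‖ ≤ (1 + 2 * ε) ^ s.card - 1 := by
  induction s using Multiset.induction_on with
  | empty => simp
  | cons a s ih =>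
    have ha : ‖a‖ ≤ ε := h a (Multiset.mem_cons_self _ _)
    have ih' := ih fun z hz => h z (Multiset.mem_cons_of_mem hz)
    rw [Multiset.map_cons, Multiset.prod_cons, Multiset.card_cons, mul_inv]
    set P := ((s.map fun z => 1 - z).prod)⁻¹ with hP
    have h1 : 1 - ε ≤ ‖1 - a‖ := by
      have := norm_sub_norm_le (1 : ℂ) a
      rw [norm_one] at this
      linarith
    have h2 : (0 : ℝ) < 1 - ε := by linarith
    have hne : (1 - a) ≠ 0 := by
      intro h0
      rw [h0, norm_zero] at h1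
      linarith
    have h3 : ‖(1 - a)⁻¹‖ ≤ 1 + 2 * ε := by
      rw [norm_inv]
      refine (inv_anti₀ h2 h1).trans ?_
      rw [inv_le_comm₀ h2 (by linarith), inv_eq_one_div, div_le_iff₀ (by linarith)]
      nlinarith
    have h4 : ‖(1 - a)⁻¹ - 1‖ ≤ 2 * ε := by
      have e1 : (1 - a)⁻¹ - 1 = a * (1 - a)⁻¹ := by
        field_simp
        ring
      rw [e1, norm_mul, norm_inv]
      have e2 : ‖1 - a‖⁻¹ ≤ 2 := by
        refine (inv_anti₀ h2 h1).trans ?_
        rw [inv_le_comm₀ h2 (by norm_num)]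
        linarith
      calc ‖a‖ * ‖1 - a‖⁻¹ ≤ ε * 2 := mul_le_mul ha e2 (inv_nonneg.2 (norm_nonneg _)) hε0
        _ = 2 * ε := by ring
    have h5 : (1 - a)⁻¹ * P - 1 = (1 - a)⁻¹ * (P - 1) + ((1 - a)⁻¹ - 1) := by ring
    rw [h5]
    refine (norm_add_le _ _).trans ?_
    rw [norm_mul]
    have h6 : (1 : ℝ) ≤ (1 + 2 * ε) ^ s.card := one_le_pow₀ (by linarith)
    calc ‖(1 - a)⁻¹‖ * ‖P - 1‖ + ‖(1 - a)⁻¹ - 1‖
        ≤ (1 + 2 * ε) * ((1 + 2 * ε) ^ s.card - 1) + 2 * ε :=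
          add_le_add (mul_le_mul h3 ih' (norm_nonneg _) (by linarith)) h4
      _ = (1 + 2 * ε) ^ (s.card + 1) - 1 := by ring

lemma pow_bound {x : ℝ} (hx0 : 0 ≤ x) (hx : x ≤ 1) (n : ℕ) : (1 + x) ^ n - 1 ≤ x * 2 ^ n := by
  induction n with
  | zero =>
    simp
    exact hx0
  | succ n ih =>
    have h1 : (1 + x) ^ n ≤ 2 ^ n := pow_le_pow_left₀ (by linarith) (by linarith) n
    calc (1 + x) ^ (n + 1) - 1 = ((1 + x) ^ n - 1) + x * (1 + x) ^ n := by ring
      _ ≤ x * 2 ^ n + x * 2 ^ n := add_le_add ih (mul_le_mul_of_nonneg_left h1 hx0)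
      _ = x * 2 ^ (n + 1) := by ring

lemma norm_cpow_prime (p : Nat.Primes) (s : ℂ) :
    ‖((p : ℕ) : ℂ) ^ (-s)‖ = ((p : ℕ) : ℝ) ^ (-s.re) := by
  rw [Complex.norm_natCast_cpow_of_pos p.2.pos, Complex.neg_re]

/-- absolute convergence -/
theorem multipliable_L {σ : Type} {X : Set (MvPolynomial σ ℤ)} {i : ℕ} {β : Nat.Primes → Multiset ℂ}
    (h : IsSystem X i β) {s : ℂ} (hs : (i : ℝ) / 2 + 1 < s.re) :
    Multipliable fun p : Nat.Primes =>
      (((β p).map (fun z => 1 - z * ((p : ℕ) : ℂ) ^ (-s))).prod)⁻¹ := by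
  obtain ⟨h1, N, hN⟩ := h
  have hsum : Summable fun p : Nat.Primes => ((p : ℕ) : ℝ) ^ ((i : ℝ) / 2 - s.re) :=
    Nat.Primes.summable_rpow.2 (by linarith)
  have h2 : ∀ᶠ p : Nat.Primes in cofinite, ((p : ℕ) : ℝ) ^ ((i : ℝ) / 2 - s.re) ≤ 1 / 2 := by
    have := hsum.tendsto_cofinite_zero
    exact this.eventually_le_const (by norm_num)
  have h3 : Summable fun p : Nat.Primes =>
      ‖(((β p).map (fun z => 1 - z * ((p : ℕ) : ℂ) ^ (-s))).prod)⁻¹ - 1‖ := by
    refine Summable.of_norm_bounded_eventually (hsum.mul_left (2 * 2 ^ N)) ?_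
    filter_upwards [h1, h2] with p hp hp2
    obtain ⟨D, b, hi, hbi, hb, _⟩ := hp
    rw [norm_norm]
    set ε : ℝ := ((p : ℕ) : ℝ) ^ ((i : ℝ) / 2 - s.re) with hε
    have hp0 : (0 : ℝ) < ((p : ℕ) : ℝ) := by exact_mod_cast p.2.pos
    have hε0 : 0 ≤ ε := Real.rpow_nonneg hp0.le _
    have e1 : (β p).map (fun z => 1 - z * ((p : ℕ) : ℂ) ^ (-s)) =
        ((β p).map (fun z => z * ((p : ℕ) : ℂ) ^ (-s))).map fun z => 1 - z := by
      rw [Multiset.map_map]
      rfl
    rw [e1]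
    refine (prod_bound _ hε0 hp2 ?_).trans ?_
    · intro w hw
      rw [Multiset.mem_map] at hw
      obtain ⟨z, hz, rfl⟩ := hw
      rw [← hbi] at hz
      rw [norm_mul, hb i z hz, norm_cpow_prime, ← Real.rpow_add hp0, ← sub_eq_add_neg]
    · rw [Multiset.card_map]
      refine (pow_bound (by linarith) (by linarith) _).trans ?_
      have h4 : (2 : ℝ) ^ (β p).card ≤ 2 ^ N := pow_le_pow_right₀ (by norm_num) (hN p)
      nlinarith
  have h4 := multipliable_one_add_of_summable h3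
  refine h4.congr fun p => ?_
  ring

/-- the shifted family and the L-functions -/
theorem LFun_shift {σ : Type} {X : Set (MvPolynomial σ ℤ)} {i : ℕ} {β : Nat.Primes → Multiset ℂ}
    (h : IsSystem X i β) (a m : ℕ) {s : ℂ} (hs : ((i + 2 * m : ℕ) : ℝ) / 2 + 1 < s.re) :
    LFun (shift a m i β) s = LFun β (s - m) *
      (if Even i then riemannZeta (s - ((i / 2 + m : ℕ) : ℂ)) ^ rankTate a m (i / 2 + m) else 1) := by
  have hs1 : (i : ℝ) / 2 + 1 < (s - m).re := by
    rw [Complex.sub_re, Complex.natCast_re]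
    push_cast at hs
    linarith
  have h1 := multipliable_L h hs1
  have hpne : ∀ p : Nat.Primes, ((p : ℕ) : ℂ) ≠ 0 := fun p => by exact_mod_cast p.2.ne_zero
  have e1 : ∀ (p : Nat.Primes) (j : ℕ), ((p : ℕ) : ℂ) ^ j * ((p : ℕ) : ℂ) ^ (-s) =
      ((p : ℕ) : ℂ) ^ (-(s - j)) := by
    intro p j
    rw [← Complex.cpow_natCast, ← Complex.cpow_add _ _ (hpne p)]
    congr 1
    ring
  have e2 : ∀ p : Nat.Primes, (((shift a m i β p).map
      (fun z => 1 - z * ((p : ℕ) : ℂ) ^ (-s))).prod)⁻¹ =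
      (((β p).map (fun z => 1 - z * ((p : ℕ) : ℂ) ^ (-(s - m)))).prod)⁻¹ *
      (if Even i then ((1 - ((p : ℕ) : ℂ) ^ (-(s - ((i / 2 + m : ℕ) : ℂ))))⁻¹) ^
        rankTate a m (i / 2 + m) else 1) := by
    intro p
    unfold shift
    rw [Multiset.map_add, Multiset.prod_add, mul_inv, Multiset.map_map]
    congr 1
    · congr 2
      refine Multiset.map_congr rfl fun z _ => ?_
      simp only [Function.comp_apply]
      rw [← e1]
      ring
    · split_ifs with hi
      · rw [Multiset.map_replicate, Multiset.prod_replicate, inv_pow, e1]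
      · simp
  have h2 : HasProd (fun p : Nat.Primes => (if Even i then
      ((1 - ((p : ℕ) : ℂ) ^ (-(s - ((i / 2 + m : ℕ) : ℂ))))⁻¹) ^
        rankTate a m (i / 2 + m) else (1 : ℂ)))
      (if Even i then riemannZeta (s - ((i / 2 + m : ℕ) : ℂ)) ^ rankTate a m (i / 2 + m) else 1) := by
    split_ifs with hi
    · have h3 : 1 < (s - ((i / 2 + m : ℕ) : ℂ)).re := by
        rw [Complex.sub_re, Complex.natCast_re]
        obtain ⟨j, rfl⟩ := hi
        have h4 : (j + j) / 2 = j := by omega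
        rw [h4]
        push_cast at hs ⊢
        linarith
      have h5 := riemannZeta_eulerProduct_hasProd h3
      exact h5.pow _
    · exact hasProd_one
  unfold LFun
  rw [tprod_congr e2, (h1.hasProd.mul h2).tprod_eq]

end Pool.Agent.E8helper75.SG
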