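import Pool.Agent.E8helper75.SG.Defs
import Pool.Agent.E8helper75.SG.Count

set_option autoImplicit false

/-!
# The points of a hyperplane section of a Segre variety
-/

namespace Pool.Agent.E8helper75.SG

open Finset

variable {κ : Type} [Field κ] {A B C : Type}

lemma seg_surj (u : A × B × C → κ) (hu : u ≠ 0)
    (h1 : ∀ a a' b b' c c', u (a, b, c) * u (a', b', c') = u (a', b, c) * u (a, b', c'))
    (h2 : ∀ a a' b b' c c', u (a, b, c) * u (a', b', c') = u (a, b', c) * u (a', b, c')) :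
    ∃ (x : A → κ) (y : B → κ) (z : C → κ), x ≠ 0 ∧ y ≠ 0 ∧ z ≠ 0 ∧
      ∀ a b c, u (a, b, c) = x a * y b * z c := by
  obtain ⟨⟨a0, b0, c0⟩, h0⟩ := Function.ne_iff.1 hu
  have hw : u (a0, b0, c0) ≠ 0 := h0
  refine ⟨fun a => u (a, b0, c0), fun b => u (a0, b, c0) / u (a0, b0, c0),
    fun c => u (a0, b0, c) / u (a0, b0, c0), fun h => hw (congrFun h a0), fun h => ?_,
    fun h => ?_, fun a b c => ?_⟩
  · have := congrFun h b0
    simp only [Pi.zero_apply, div_self hw] at this
    exact one_ne_zero this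
  · have := congrFun h c0
    simp only [Pi.zero_apply, div_self hw] at this
    exact one_ne_zero this
  · have e1 := h1 a a0 b b0 c c0
    have e2 := h2 a0 a0 b b0 c c0
    simp only
    field_simp
    calc u (a, b, c) * u (a0, b0, c0) ^ 2 = (u (a, b, c) * u (a0, b0, c0)) * u (a0, b0, c0) := by
          ring
      _ = (u (a0, b, c) * u (a0, b0, c0)) * u (a, b0, c0) := by rw [e1]; ring
      _ = u (a, b0, c0) * u (a0, b, c0) * u (a0, b0, c) := by rw [e2]; ring

lemma tens_eq {x x' : A → κ} {y y' : B → κ} {z z' : C → κ} (hx : x ≠ 0) (hy : y ≠ 0) (hz : z ≠ 0)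
    (h : ∀ a b c, x a * y b * z c = x' a * y' b * z' c) :
    ∃ l m : κˣ, x = (l : κ) • x' ∧ y = (m : κ) • y' ∧ z = ((l * m : κˣ)⁻¹ : κˣ).val • z' := by
  obtain ⟨a0, ha0⟩ := Function.ne_iff.1 hx
  obtain ⟨b0, hb0⟩ := Function.ne_iff.1 hy
  obtain ⟨c0, hc0⟩ := Function.ne_iff.1 hz
  simp only [Pi.zero_apply] at ha0 hb0 hc0
  have h0 := h a0 b0 c0
  have hne : x' a0 * y' b0 * z' c0 ≠ 0 := by
    rw [← h0]
    exact mul_ne_zero (mul_ne_zero ha0 hb0) hc0
  have hx0 : x' a0 ≠ 0 := left_ne_zero_of_mul (left_ne_zero_of_mul hne)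
  have hy0 : y' b0 ≠ 0 := right_ne_zero_of_mul (left_ne_zero_of_mul hne)
  have hz0 : z' c0 ≠ 0 := right_ne_zero_of_mul hne
  have ex : ∀ a, x a = (x a0 / x' a0) * x' a := by
    intro a
    have e1 := h a b0 c0
    have e2 : x a * (y b0 * z c0) * x' a0 = x a0 * (y b0 * z c0) * x' a := by
      calc x a * (y b0 * z c0) * x' a0 = (x a * y b0 * z c0) * x' a0 := by ring
        _ = (x' a0 * y' b0 * z' c0) * x' a := by rw [e1]; ring
        _ = x a0 * (y b0 * z c0) * x' a := by rw [← h0]; ring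
    have e3 : y b0 * z c0 ≠ 0 := mul_ne_zero hb0 hc0
    field_simp
    exact mul_right_cancel₀ e3 (by linear_combination e2)
  have ey : ∀ b, y b = (y b0 / y' b0) * y' b := by
    intro b
    have e1 := h a0 b c0
    have e2 : y b * (x a0 * z c0) * y' b0 = y b0 * (x a0 * z c0) * y' b := by
      calc y b * (x a0 * z c0) * y' b0 = (x a0 * y b * z c0) * y' b0 := by ring
        _ = (x' a0 * y' b0 * z' c0) * y' b := by rw [e1]; ring
        _ = y b0 * (x a0 * z c0) * y' b := by rw [← h0]; ring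
    have e3 : x a0 * z c0 ≠ 0 := mul_ne_zero ha0 hc0
    field_simp
    exact mul_right_cancel₀ e3 (by linear_combination e2)
  refine ⟨Units.mk0 (x a0 / x' a0) (div_ne_zero ha0 hx0),
    Units.mk0 (y b0 / y' b0) (div_ne_zero hb0 hy0), funext ex, funext ey, funext fun c => ?_⟩
  have e1 := h a0 b0 c
  simp only [Units.val_inv_eq_inv_val, Units.val_mul, Units.val_mk0, Pi.smul_apply, smul_eq_mul]
  field_simp
  linear_combination e1

/-- **The points of the hyperplane section.** -/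
theorem card_section [Finite κ] [Fintype A] [Fintype B] [Fintype C] (T : A → B → C → ℤ) :
    cone (segreSection T) κ * (Nat.card κ - 1) ^ 2 =
      Nat.card {t : (A → κ) × (B → κ) × (C → κ) //
        t.1 ≠ 0 ∧ t.2.1 ≠ 0 ∧ t.2.2 ≠ 0 ∧ tri T t.1 t.2.1 t.2.2 = 0} := by
  classical
  have hT : ∀ u : A × B × C → κ, (∀ f ∈ segreSection T, MvPolynomial.aeval u f = 0) ↔
      (∑ a, ∑ b, ∑ c, (T a b c : κ) * u (a, b, c) = 0) ∧
      (∀ a a' b b' c c', u (a, b, c) * u (a', b', c') = u (a', b, c) * u (a, b', c')) ∧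
      (∀ a a' b b' c c', u (a, b, c) * u (a', b', c') = u (a, b', c) * u (a', b, c')) := by
    intro u
    have e0 : MvPolynomial.aeval u (∑ a, ∑ b, ∑ c,
        (MvPolynomial.C (T a b c) * MvPolynomial.X (a, b, c) : MvPolynomial (A × B × C) ℤ)) =
        ∑ a, ∑ b, ∑ c, (T a b c : κ) * u (a, b, c) := by
      simp only [map_sum, map_mul, MvPolynomial.aeval_X, eq_intCast, map_intCast]
    constructor
    · intro h
      refine ⟨?_, fun a a' b b' c c' => ?_, fun a a' b b' c c' => ?_⟩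
      · have := h _ (Set.mem_insert _ _)
        rwa [e0] at this
      · have := h _ (Set.mem_insert_of_mem _ ⟨a, a', b, b', c, c', Or.inl rfl⟩)
        simp only [map_sub, map_mul, MvPolynomial.aeval_X] at this
        exact sub_eq_zero.1 this
      · have := h _ (Set.mem_insert_of_mem _ ⟨a, a', b, b', c, c', Or.inr rfl⟩)
        simp only [map_sub, map_mul, MvPolynomial.aeval_X] at this
        exact sub_eq_zero.1 this
    · rintro ⟨h0, h1, h2⟩ f hf
      rcases hf with rfl | ⟨a, a', b, b', c, c', rfl | rfl⟩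
      · rw [e0, h0]
      · simp only [map_sub, map_mul, MvPolynomial.aeval_X]
        rw [h1 a a' b b' c c', sub_self]
      · simp only [map_sub, map_mul, MvPolynomial.aeval_X]
        rw [h2 a a' b b' c c', sub_self]
  have hrep : ∀ u : {u : A × B × C → κ // u ≠ 0 ∧ ∀ f ∈ segreSection T, MvPolynomial.aeval u f = 0},
      ∃ t : (A → κ) × (B → κ) × (C → κ), t.1 ≠ 0 ∧ t.2.1 ≠ 0 ∧ t.2.2 ≠ 0 ∧
        ∀ a b c, u.1 (a, b, c) = t.1 a * t.2.1 b * t.2.2 c := by
    rintro ⟨u, hu, hu2⟩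
    obtain ⟨h0, h1, h2⟩ := (hT u).1 hu2
    obtain ⟨x, y, z, hx, hy, hz, h⟩ := seg_surj u hu h1 h2
    exact ⟨(x, y, z), hx, hy, hz, h⟩
  choose t ht1 ht2 ht3 ht using hrep
  have hsq : (Nat.card κ - 1) ^ 2 = Nat.card (κˣ × κˣ) := by
    rw [Nat.card_prod, Nat.card_units]
    ring
  rw [hsq, cone, ← Nat.card_prod]
  have htri : ∀ (u : {u : A × B × C → κ // u ≠ 0 ∧ ∀ f ∈ segreSection T,
      MvPolynomial.aeval u f = 0}) (l m : κˣ), tri T ((l : κ) • (t u).1) ((m : κ) • (t u).2.1)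
        (((l * m : κˣ)⁻¹ : κˣ).val • (t u).2.2) = 0 := by
    intro u l m
    rw [← ((hT u.1).1 u.2.2).1]
    unfold tri
    refine sum_congr rfl fun a _ => sum_congr rfl fun b _ => sum_congr rfl fun c _ => ?_
    rw [ht u a b c]
    simp only [Pi.smul_apply, smul_eq_mul, Units.val_inv_eq_inv_val, Units.val_mul]
    have hl := l.ne_zero
    have hm := m.ne_zero
    field_simp
  refine Nat.card_eq_of_bijective (fun w => ⟨((w.2.1 : κ) • (t w.1).1, (w.2.2 : κ) • (t w.1).2.1,
    ((w.2.1 * w.2.2 : κˣ)⁻¹ : κˣ).val • (t w.1).2.2), smul_ne_zero w.2.1.ne_zero (ht1 _),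
    smul_ne_zero w.2.2.ne_zero (ht2 _), smul_ne_zero (Units.ne_zero _) (ht3 _), htri _ _ _⟩) ⟨?_, ?_⟩
  · rintro ⟨u, l, m⟩ ⟨u', l', m'⟩ h
    simp only [Subtype.mk.injEq, Prod.mk.injEq] at h
    obtain ⟨e1, e2, e3⟩ := h
    have hprod : ∀ (v : {u : A × B × C → κ // u ≠ 0 ∧ ∀ f ∈ segreSection T,
        MvPolynomial.aeval u f = 0}) (r s : κˣ) (a : A) (b : B) (c : C),
        ((r : κ) • (t v).1) a * ((s : κ) • (t v).2.1) b *
          (((r * s : κˣ)⁻¹ : κˣ).val • (t v).2.2) c = v.1 (a, b, c) := by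
      intro v r s a b c
      rw [ht v a b c]
      simp only [Pi.smul_apply, smul_eq_mul, Units.val_inv_eq_inv_val, Units.val_mul]
      have hl := r.ne_zero
      have hm := s.ne_zero
      field_simp
    have hu : u = u' := by
      refine Subtype.ext (funext fun x => ?_)
      obtain ⟨a, b, c⟩ := x
      rw [← hprod u l m a b c, ← hprod u' l' m' a b c, e1, e2, e3]
    subst hu
    have hl : l = l' := by
      refine Units.ext ?_
      exact smul_left_injective κ (ht1 u) e1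
    have hm : m = m' := by
      refine Units.ext ?_
      exact smul_left_injective κ (ht2 u) e2
    rw [hl, hm]
  · rintro ⟨⟨x, y, z⟩, hx, hy, hz, hxyz⟩
    set u : A × B × C → κ := fun w => x w.1 * y w.2.1 * z w.2.2 with hu
    have hune : u ≠ 0 := by
      obtain ⟨a0, ha0⟩ := Function.ne_iff.1 hx
      obtain ⟨b0, hb0⟩ := Function.ne_iff.1 hy
      obtain ⟨c0, hc0⟩ := Function.ne_iff.1 hz
      intro h
      exact mul_ne_zero (mul_ne_zero ha0 hb0) hc0 (congrFun h (a0, b0, c0))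
    have hueq : ∀ f ∈ segreSection T, MvPolynomial.aeval u f = 0 := by
      rw [hT]
      refine ⟨?_, fun a a' b b' c c' => ?_, fun a a' b b' c c' => ?_⟩
      · rw [← hxyz]
        unfold tri
        refine sum_congr rfl fun a _ => sum_congr rfl fun b _ => sum_congr rfl fun c _ => ?_
        simp only [hu]
        ring
      · simp only [hu]
        ring
      · simp only [hu]
        ring
    obtain ⟨l, m, e1, e2, e3⟩ := tens_eq hx hy hz (x' := (t ⟨u, hune, hueq⟩).1)
      (y' := (t ⟨u, hune, hueq⟩).2.1) (z' := (t ⟨u, hune, hueq⟩).2.2) (fun a b c => by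
        rw [← ht ⟨u, hune, hueq⟩ a b c])
    refine ⟨(⟨u, hune, hueq⟩, l, m), ?_⟩
    refine Subtype.ext ?_
    simp only
    rw [← e1, ← e2, ← e3]

end Pool.Agent.E8helper75.SG
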