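import Pool.Agent.E8helper75.SG.Ver
import Pool.Agent.E8helper75.SG.Segre

set_option autoImplicit false

/-!
# The tensor of a projective scheme
-/

namespace Pool.Agent.E8helper75.SG

open Finset

variable {ι : Type} [Fintype ι] [DecidableEq ι] {D : ℕ}

omit [DecidableEq ι] in
lemma exists_coef (g : MvPolynomial ι ℤ) (hg : g.IsHomogeneous (D + D)) :
    ∃ t : (Fin D → ι) → (Fin D → ι) → ℤ, ∀ (κ : Type) [Field κ] (x : ι → κ),
      ∑ I, ∑ J, (t I J : κ) * (pw x I * pw x J) = MvPolynomial.aeval x g := by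
  classical
  have h1 : ∀ m : g.support, ∃ IJ : (Fin D → ι) × (Fin D → ι), ∀ (κ : Type) [Field κ] (x : ι → κ),
      pw x IJ.1 * pw x IJ.2 = ∏ i, x i ^ m.1 i := by
    intro m
    have h2 : m.1.degree = D + D := by
      rw [Finsupp.degree_eq_weight_one, ← Pi.one_def]
      exact hg (MvPolynomial.mem_support_iff.1 m.2)
    obtain ⟨I, J, h⟩ := exists_tuples m.1 h2
    exact ⟨(I, J), h⟩
  choose IJ hIJ using h1
  refine ⟨fun I J => ∑ m : g.support, if (I, J) = IJ m then g.coeff m.1 else 0, fun κ _ x => ?_⟩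
  have h2 : MvPolynomial.aeval x g = ∑ m : g.support, ((g.coeff m.1 : ℤ) : κ) * ∏ i, x i ^ m.1 i := by
    rw [MvPolynomial.aeval_def, MvPolynomial.eval₂_eq', ← Finset.sum_coe_sort]
    rfl
  rw [h2, ← Finset.sum_product']
  have h3 : ∀ p : (Fin D → ι) × (Fin D → ι),
      ((∑ m : g.support, if (p.1, p.2) = IJ m then g.coeff m.1 else 0 : ℤ) : κ) *
        (pw x p.1 * pw x p.2) = ∑ m : g.support, if p = IJ m then
          ((g.coeff m.1 : ℤ) : κ) * ∏ i, x i ^ m.1 i else 0 := by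
    intro p
    push_cast
    rw [sum_mul]
    refine sum_congr rfl fun m _ => ?_
    by_cases h : p = IJ m
    · rw [if_pos h, if_pos h, h, hIJ]
    · rw [if_neg h, if_neg h, zero_mul]
  rw [sum_congr rfl fun p _ => h3 p, sum_comm]
  refine sum_congr rfl fun m _ => ?_
  rw [Finset.univ_product_univ, Finset.sum_ite_eq' univ (IJ m)]
  simp

variable (X : Finset (MvPolynomial ι ℤ))

/-- the index set of the bilinear equations -/
abbrev Idx (D : ℕ) : Type :=
  {w : ((Fin D → ι) × (Fin D → ι)) × ((Fin D → ι) × (Fin D → ι)) //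
    mon w.1.1 + mon w.1.2 = mon w.2.1 + mon w.2.2} ⊕ ({f // f ∈ X} × (Fin (D + D) → ι))

/-- the equation `f`, made homogeneous of degree `2 D` -/
noncomputable def lift (D : ℕ) (e : {f // f ∈ X} × (Fin (D + D) → ι)) : MvPolynomial ι ℤ :=
  e.1.1 * ∏ j : Fin (D + D - e.1.1.totalDegree),
    MvPolynomial.X (e.2 (Fin.castLE (Nat.sub_le _ _) j))

omit [Fintype ι] [DecidableEq ι] in
lemma lift_hom (hX : ∀ f ∈ X, ∃ e, f.IsHomogeneous e) (hD : ∀ f ∈ X, f.totalDegree ≤ D)
    (e : {f // f ∈ X} × (Fin (D + D) → ι)) : (lift X D e).IsHomogeneous (D + D) := by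
  have h1 : e.1.1.IsHomogeneous e.1.1.totalDegree := by
    obtain ⟨d, hd⟩ := hX e.1.1 e.1.2
    by_cases h0 : e.1.1 = 0
    · rw [h0]
      exact MvPolynomial.isHomogeneous_zero _ _ _
    · rwa [hd.totalDegree h0]
  have h2 : (∏ j : Fin (D + D - e.1.1.totalDegree),
      (MvPolynomial.X (e.2 (Fin.castLE (Nat.sub_le _ _) j)) : MvPolynomial ι ℤ)).IsHomogeneous
        (∑ _j : Fin (D + D - e.1.1.totalDegree), 1) :=
    MvPolynomial.IsHomogeneous.prod _ _ _ fun j _ => MvPolynomial.isHomogeneous_X _ _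
  have h3 := h1.mul h2
  have h4 : e.1.1.totalDegree + ∑ _j : Fin (D + D - e.1.1.totalDegree), 1 = D + D := by
    have := hD e.1.1 e.1.2
    simp
    omega
  rw [h4] at h3
  exact h3

/-- **The tensor of a projective scheme.** -/
theorem exists_tensor (hX : ∀ f ∈ X, ∃ e, f.IsHomogeneous e) (hD : ∀ f ∈ X, f.totalDegree ≤ D)
    (hD0 : 0 < D) : ∃ T : (Fin D → ι) → (Fin D → ι) → Idx X D → ℤ,
      ∀ (κ : Type) [Field κ] (u v : (Fin D → ι) → κ), u ≠ 0 → v ≠ 0 →
        ((∀ c, bil T u v c = 0) ↔ ∃ (x : ι → κ) (c c' : κ), x ≠ 0 ∧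
          (∀ f ∈ X, MvPolynomial.aeval x f = 0) ∧ c ≠ 0 ∧ c' ≠ 0 ∧
            (∀ I, u I = c * pw x I) ∧ ∀ I, v I = c' * pw x I) := by
  classical
  have h1 := fun e : {f // f ∈ X} × (Fin (D + D) → ι) => exists_coef (lift X D e)
    (lift_hom X hX hD e)
  choose t ht using h1
  refine ⟨fun I J c => Sum.elim (fun w => (if (I, J) = w.1.1 then (1 : ℤ) else 0) -
    if (I, J) = w.1.2 then 1 else 0) (fun e => t e I J) c, fun κ _ u v hu hv => ?_⟩
  have hl : ∀ w : {w : ((Fin D → ι) × (Fin D → ι)) × ((Fin D → ι) × (Fin D → ι)) //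
      mon w.1.1 + mon w.1.2 = mon w.2.1 + mon w.2.2},
      bil (fun I J c => Sum.elim (fun w : {w : ((Fin D → ι) × (Fin D → ι)) ×
        ((Fin D → ι) × (Fin D → ι)) // mon w.1.1 + mon w.1.2 = mon w.2.1 + mon w.2.2} =>
        (if (I, J) = w.1.1 then (1 : ℤ) else 0) - if (I, J) = w.1.2 then 1 else 0)
        (fun e : {f // f ∈ X} × (Fin (D + D) → ι) => t e I J) c) u v (Sum.inl w) =
          u w.1.1.1 * v w.1.1.2 - u w.1.2.1 * v w.1.2.2 := by
    intro w
    unfold bil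
    simp only [Sum.elim_inl]
    rw [← Finset.sum_product', Finset.univ_product_univ]
    have h3 : ∀ p : (Fin D → ι) × (Fin D → ι),
        (((if (p.1, p.2) = w.1.1 then (1 : ℤ) else 0) - (if (p.1, p.2) = w.1.2 then 1 else 0) : ℤ) : κ) *
          u p.1 * v p.2 = (if p = w.1.1 then u p.1 * v p.2 else 0) -
            if p = w.1.2 then u p.1 * v p.2 else 0 := by
      intro p
      push_cast
      rw [sub_mul, sub_mul]
      congr 1
      · split_ifs <;> simp
      · split_ifs <;> simp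
    rw [sum_congr rfl fun p _ => h3 p, sum_sub_distrib, Finset.sum_ite_eq' univ w.1.1,
      Finset.sum_ite_eq' univ w.1.2]
    simp
  constructor
  · intro h
    have hrel : ∀ I J I' J' : Fin D → ι, mon I + mon J = mon I' + mon J' →
        u I * v J = u I' * v J' := by
      intro I J I' J' hIJ
      have := h (Sum.inl ⟨((I, J), (I', J')), hIJ⟩)
      rw [hl] at this
      exact sub_eq_zero.1 this
    obtain ⟨J0, hJ0⟩ := Function.ne_iff.1 hu
    simp only [Pi.zero_apply] at hJ0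
    have hpar : ∀ I, v I = v J0 / u J0 * u I := by
      intro I
      have := hrel J0 I I J0 (add_comm _ _)
      field_simp
      linear_combination this
    have hl0 : v J0 / u J0 ≠ 0 := by
      intro h0
      apply hv
      funext I
      rw [hpar I, h0, zero_mul]
      rfl
    obtain ⟨x, c, hx, hc, hux⟩ := ver_surj hD0 u hu (fun I J I' J' hIJ => by
      have := hrel I J I' J' hIJ
      rw [hpar J, hpar J'] at this
      exact mul_left_cancel₀ hl0 (by linear_combination this))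
    refine ⟨x, c, v J0 / u J0 * c, hx, fun f hf => ?_, hc, mul_ne_zero hl0 hc, hux, fun I => ?_⟩
    · obtain ⟨i, hi⟩ := Function.ne_iff.1 hx
      simp only [Pi.zero_apply] at hi
      have h2 := h (Sum.inr (⟨f, hf⟩, fun _ => i))
      unfold bil at h2
      simp only [Sum.elim_inr] at h2
      have h3 : ∑ I, ∑ J, (t (⟨f, hf⟩, fun _ => i) I J : κ) * u I * v J =
          c * (v J0 / u J0 * c) * ∑ I, ∑ J, (t (⟨f, hf⟩, fun _ => i) I J : κ) *
            (pw x I * pw x J) := by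
        rw [mul_sum]
        refine sum_congr rfl fun I _ => ?_
        rw [mul_sum]
        refine sum_congr rfl fun J _ => ?_
        rw [hpar J, hux I, hux J]
        ring
      rw [h3, ht] at h2
      have h4 : MvPolynomial.aeval x (lift X D (⟨f, hf⟩, fun _ => i)) = 0 := by
        rcases mul_eq_zero.1 h2 with h5 | h5
        · exact absurd h5 (mul_ne_zero hc (mul_ne_zero hl0 hc))
        · exact h5
      unfold lift at h4
      rw [map_mul, map_prod] at h4
      rcases mul_eq_zero.1 h4 with h5 | h5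
      · exact h5
      · exfalso
        rw [Finset.prod_eq_zero_iff] at h5
        obtain ⟨j, _, hj⟩ := h5
        rw [MvPolynomial.aeval_X] at hj
        exact hi hj
    · rw [hpar I, hux I]
      ring
  · rintro ⟨x, c, c', hx, hXx, hc, hc', hux, hvx⟩ w
    rcases w with w | e
    · rw [hl, hux, hvx, hux, hvx]
      have h2 : pw x w.1.1.1 * pw x w.1.1.2 = pw x w.1.2.1 * pw x w.1.2.2 := by
        rw [← prod_mon, ← prod_mon, ← prod_mon, ← prod_mon, ← Multiset.prod_add,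
          ← Multiset.prod_add, ← Multiset.map_add, ← Multiset.map_add, w.2]
      linear_combination c * c' * h2
    · unfold bil
      simp only [Sum.elim_inr]
      have h3 : ∑ I, ∑ J, (t e I J : κ) * u I * v J =
          c * c' * ∑ I, ∑ J, (t e I J : κ) * (pw x I * pw x J) := by
        rw [mul_sum]
        refine sum_congr rfl fun I _ => ?_
        rw [mul_sum]
        refine sum_congr rfl fun J _ => ?_
        rw [hux I, hvx J]
        ring
      rw [h3, ht]
      unfold lift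
      rw [map_mul, hXx _ e.1.2, zero_mul, mul_zero]

omit [DecidableEq ι] in
lemma aeval_smul {κ : Type} [Field κ] {f : MvPolynomial ι ℤ} {e : ℕ} (hf : f.IsHomogeneous e)
    (l : κ) (x : ι → κ) : MvPolynomial.aeval (l • x) f = l ^ e * MvPolynomial.aeval x f := by
  classical
  rw [MvPolynomial.aeval_def, MvPolynomial.aeval_def, MvPolynomial.eval₂_eq',
    MvPolynomial.eval₂_eq', mul_sum]
  refine sum_congr rfl fun m hm => ?_
  have h2 : m.degree = e := by
    rw [Finsupp.degree_eq_weight_one, ← Pi.one_def]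
    exact hf (MvPolynomial.mem_support_iff.1 hm)
  simp only [Pi.smul_apply, smul_eq_mul, mul_pow]
  rw [prod_mul_distrib, Finset.prod_pow_eq_pow_sum]
  have h3 : ∑ i, m i = e := by
    rw [← h2, Finsupp.degree_eq_sum]
  rw [h3]
  ring

/-- **The number of the solutions of the bilinear system.** -/
theorem card_sol (hX : ∀ f ∈ X, ∃ e, f.IsHomogeneous e) (hD0 : 0 < D)
    (T : (Fin D → ι) → (Fin D → ι) → Idx X D → ℤ) (κ : Type) [Field κ] [Finite κ]
    (hT : ∀ (u v : (Fin D → ι) → κ), u ≠ 0 → v ≠ 0 →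
        ((∀ c, bil T u v c = 0) ↔ ∃ (x : ι → κ) (c c' : κ), x ≠ 0 ∧
          (∀ f ∈ X, MvPolynomial.aeval x f = 0) ∧ c ≠ 0 ∧ c' ≠ 0 ∧
            (∀ I, u I = c * pw x I) ∧ ∀ I, v I = c' * pw x I)) :
    Nat.card {s : ((Fin D → ι) → κ) × ((Fin D → ι) → κ) //
      s.1 ≠ 0 ∧ s.2 ≠ 0 ∧ ∀ c, bil T s.1 s.2 c = 0} =
        cone (X : Set (MvPolynomial ι ℤ)) κ * (Nat.card κ - 1) := by
  classical
  have hu1 : Nat.card κˣ = Nat.card κ - 1 := Nat.card_units κ
  have hpos : 0 < Nat.card κˣ := Nat.card_pos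
  refine Nat.eq_of_mul_eq_mul_right hpos ?_
  rw [← hu1, ← Nat.card_prod, mul_assoc, ← Nat.card_prod, cone, ← Nat.card_prod]
  have hrep : ∀ s : {s : ((Fin D → ι) → κ) × ((Fin D → ι) → κ) //
      s.1 ≠ 0 ∧ s.2 ≠ 0 ∧ ∀ c, bil T s.1 s.2 c = 0}, ∃ y : (ι → κ) × κˣ × κˣ, y.1 ≠ 0 ∧
        (∀ f ∈ X, MvPolynomial.aeval y.1 f = 0) ∧ (∀ I, s.1.1 I = y.2.1 * pw y.1 I) ∧
          ∀ I, s.1.2 I = y.2.2 * pw y.1 I := by
    rintro ⟨⟨u, v⟩, hu, hv, h⟩
    obtain ⟨x, c, c', hx, hXx, hc, hc', h1, h2⟩ := (hT u v hu hv).1 h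
    exact ⟨(x, Units.mk0 c hc, Units.mk0 c' hc'), hx, hXx, h1, h2⟩
  choose y hy1 hy2 hy3 hy4 using hrep
  have hhom : ∀ (l : κˣ) (x : ι → κ), (∀ f ∈ X, MvPolynomial.aeval x f = 0) →
      ∀ f ∈ (X : Set (MvPolynomial ι ℤ)), MvPolynomial.aeval ((l : κ) • x) f = 0 := by
    intro l x hx f hf
    obtain ⟨e, he⟩ := hX f hf
    rw [aeval_smul he, hx f hf, mul_zero]
  refine Nat.card_eq_of_bijective (fun w => (⟨(w.2 : κ) • (y w.1).1,
    smul_ne_zero w.2.ne_zero (hy1 _), hhom _ _ (hy2 _)⟩,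
    ((w.2 ^ D)⁻¹ * (y w.1).2.1, (w.2 ^ D)⁻¹ * (y w.1).2.2))) ⟨?_, ?_⟩
  · rintro ⟨s, l⟩ ⟨s', l'⟩ h
    simp only [Prod.mk.injEq, Subtype.mk.injEq] at h
    obtain ⟨e1, e2, e3⟩ := h
    have hval : ∀ (s : {s : ((Fin D → ι) → κ) × ((Fin D → ι) → κ) //
        s.1 ≠ 0 ∧ s.2 ≠ 0 ∧ ∀ c, bil T s.1 s.2 c = 0}) (l : κˣ) (I : Fin D → ι),
        s.1.1 I = (((l ^ D)⁻¹ * (y s).2.1 : κˣ) : κ) * pw ((l : κ) • (y s).1) I ∧
        s.1.2 I = (((l ^ D)⁻¹ * (y s).2.2 : κˣ) : κ) * pw ((l : κ) • (y s).1) I := by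
      intro s l I
      have hl := l.ne_zero
      rw [pw_smul, hy3, hy4]
      simp only [Units.val_mul, Units.val_inv_eq_inv_val, Units.val_pow_eq_pow_val]
      constructor <;> field_simp
    have hs : s = s' := by
      refine Subtype.ext (Prod.ext (funext fun I => ?_) (funext fun I => ?_))
      · rw [(hval s l I).1, (hval s' l' I).1, e1, e2]
      · rw [(hval s l I).2, (hval s' l' I).2, e1, e3]
    subst hs
    have : l = l' := Units.ext (smul_left_injective κ (hy1 s) e1)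
    rw [this]
  · rintro ⟨⟨x, hx, hXx⟩, c, c'⟩
    obtain ⟨i, hi⟩ := Function.ne_iff.1 hx
    simp only [Pi.zero_apply] at hi
    have hpw : pw x (fun _ : Fin D => i) ≠ 0 := by
      simp only [pw]
      rw [prod_const]
      exact pow_ne_zero _ hi
    have hne : ∀ c : κˣ, (fun I : Fin D → ι => (c : κ) * pw x I) ≠ 0 := by
      intro c h
      exact mul_ne_zero c.ne_zero hpw (congrFun h fun _ => i)
    set s : {s : ((Fin D → ι) → κ) × ((Fin D → ι) → κ) //
        s.1 ≠ 0 ∧ s.2 ≠ 0 ∧ ∀ c, bil T s.1 s.2 c = 0} :=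
      ⟨(fun I => (c : κ) * pw x I, fun I => (c' : κ) * pw x I), hne c, hne c',
        (hT _ _ (hne c) (hne c')).2 ⟨x, c, c', hx, fun f hf => hXx f hf, c.ne_zero, c'.ne_zero,
          fun _ => rfl, fun _ => rfl⟩⟩ with hs
    obtain ⟨l, e1, e2⟩ := ver_inj hD0 hx c.ne_zero (y s).2.1.ne_zero fun I => by
      rw [← hy3 s I]
    obtain ⟨l', e1', e2'⟩ := ver_inj hD0 hx c'.ne_zero (y s).2.2.ne_zero fun I => by
      rw [← hy4 s I]
    have hll : l = l' := by
      refine Units.ext (smul_left_injective κ (hy1 s) ?_)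
      simp only
      rw [← e1, ← e1']
    subst hll
    refine ⟨(s, l), ?_⟩
    have hl := l.ne_zero
    simp only [Prod.mk.injEq, Subtype.mk.injEq]
    refine ⟨e1.symm, Units.ext ?_, Units.ext ?_⟩
    · simp only [Units.val_mul, Units.val_inv_eq_inv_val, Units.val_pow_eq_pow_val]
      rw [← e2]
      field_simp
    · simp only [Units.val_mul, Units.val_inv_eq_inv_val, Units.val_pow_eq_pow_val]
      rw [← e2']
      field_simp

/-- **Every projective scheme and a hyperplane section of a Segre variety.** -/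
theorem main_count [Nonempty ι] (hX : ∀ f ∈ X, ∃ e, f.IsHomogeneous e) :
    ∃ (A C : Type) (_ : Fintype A) (_ : Fintype C) (a m : ℕ) (T : A → A → C → ℤ),
      Fintype.card A = a ∧ Fintype.card C = m + 1 ∧ ∀ (κ : Type) [Field κ] [Finite κ],
        (cone (segreSection T) κ : ℤ) * ((Nat.card κ : ℤ) - 1) ^ 2 =
          ((Nat.card κ : ℤ) ^ a - 1) ^ 2 * ((Nat.card κ : ℤ) ^ m - 1) +
          (Nat.card κ : ℤ) ^ m * ((Nat.card κ : ℤ) - 1) ^ 2 *
            cone (X : Set (MvPolynomial ι ℤ)) κ := by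
  classical
  set D : ℕ := X.sup MvPolynomial.totalDegree + 1 with hDdef
  have hD : ∀ f ∈ X, f.totalDegree ≤ D := fun f hf =>
    (Finset.le_sup (f := MvPolynomial.totalDegree) hf).trans (Nat.le_succ _)
  have hD0 : 0 < D := Nat.succ_pos _
  obtain ⟨T, hT⟩ := exists_tensor X hX hD hD0
  obtain ⟨i⟩ := ‹Nonempty ι›
  have hne : 0 < Fintype.card (Idx X D) :=
    Fintype.card_pos_iff.2 ⟨Sum.inl ⟨((fun _ => i, fun _ => i), (fun _ => i, fun _ => i)), rfl⟩⟩
  obtain ⟨m, hm⟩ : ∃ m, Fintype.card (Idx X D) = m + 1 := ⟨_, (Nat.succ_pred_eq_of_pos hne).symm⟩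
  refine ⟨Fin D → ι, Idx X D, inferInstance, inferInstance, _, m, T, rfl, hm, fun κ _ _ => ?_⟩
  have h1 := card_section (κ := κ) T
  have h2 := card_tri (κ := κ) T hm
  have h3 := card_sol X hX hD0 T κ (hT κ)
  have hq : 1 ≤ Nat.card κ := Nat.card_pos
  have h4 : (cone (segreSection T) κ : ℤ) * ((Nat.card κ : ℤ) - 1) ^ 2 =
      (Nat.card {t : ((Fin D → ι) → κ) × ((Fin D → ι) → κ) × (Idx X D → κ) //
        t.1 ≠ 0 ∧ t.2.1 ≠ 0 ∧ t.2.2 ≠ 0 ∧ tri T t.1 t.2.1 t.2.2 = 0} : ℤ) := by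
    rw [← h1]
    push_cast [Nat.cast_sub hq]
    ring
  rw [h4, h2, h3]
  push_cast [Nat.cast_sub hq]
  ring

end Pool.Agent.E8helper75.SG
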