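import Pool.Agent.E8helper75.SG.Frob
import Pool.Agent.E8helper75.SG.Ten

set_option autoImplicit false

/-!
# Projective schemes and hyperplane sections of Segre varieties
-/

namespace Pool.Agent.E8helper75.SG

open Finset

lemma tri_reindex {κ : Type} [Field κ] {A A' C C' : Type} [Fintype A] [Fintype A'] [Fintype C]
    [Fintype C'] (e : A ≃ A') (f : C ≃ C') (T : A → A → C → ℤ) (x y : A' → κ) (z : C' → κ) :
    tri (fun a b c => T (e.symm a) (e.symm b) (f.symm c)) x y z = tri T (x ∘ e) (y ∘ e) (z ∘ f) := by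
  unfold tri
  rw [← Equiv.sum_comp e]
  refine sum_congr rfl fun a _ => ?_
  rw [← Equiv.sum_comp e]
  refine sum_congr rfl fun b _ => ?_
  rw [← Equiv.sum_comp f]
  refine sum_congr rfl fun c _ => ?_
  simp only [Equiv.symm_apply_apply, Function.comp_apply]

lemma comp_ne_zero {κ : Type} [Field κ] {A A' : Type} (e : A ≃ A') (x : A' → κ) :
    x ∘ e ≠ 0 ↔ x ≠ 0 := by
  refine not_congr ⟨fun h => funext fun a => ?_, fun h => funext fun a => ?_⟩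
  · have := congrFun h (e.symm a)
    simpa using this
  · have := congrFun h (e a)
    simpa using this

lemma card_reindex {κ : Type} [Field κ] {A A' C C' : Type} [Fintype A] [Fintype A'] [Fintype C]
    [Fintype C'] (e : A ≃ A') (f : C ≃ C') (T : A → A → C → ℤ) :
    Nat.card {t : (A' → κ) × (A' → κ) × (C' → κ) // t.1 ≠ 0 ∧ t.2.1 ≠ 0 ∧ t.2.2 ≠ 0 ∧
      tri (fun a b c => T (e.symm a) (e.symm b) (f.symm c)) t.1 t.2.1 t.2.2 = 0} =
    Nat.card {t : (A → κ) × (A → κ) × (C → κ) // t.1 ≠ 0 ∧ t.2.1 ≠ 0 ∧ t.2.2 ≠ 0 ∧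
      tri T t.1 t.2.1 t.2.2 = 0} := by
  refine Nat.card_congr (Equiv.subtypeEquiv ((Equiv.arrowCongr e.symm (Equiv.refl κ)).prodCongr
    ((Equiv.arrowCongr e.symm (Equiv.refl κ)).prodCongr (Equiv.arrowCongr f.symm (Equiv.refl κ))))
    fun t => ?_)
  have h1 : (Equiv.arrowCongr e.symm (Equiv.refl κ)) t.1 = t.1 ∘ e := rfl
  have h2 : (Equiv.arrowCongr e.symm (Equiv.refl κ)) t.2.1 = t.2.1 ∘ e := rfl
  have h3 : (Equiv.arrowCongr f.symm (Equiv.refl κ)) t.2.2 = t.2.2 ∘ f := rfl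
  simp only [Equiv.prodCongr_apply, Prod.map_fst, Prod.map_snd, h1, h2, h3]
  rw [comp_ne_zero, comp_ne_zero, comp_ne_zero, tri_reindex]

/-- **Every projective scheme and a hyperplane section of a Segre variety.** -/
theorem main_fin {ι : Type} [Fintype ι] [DecidableEq ι] [Nonempty ι]
    (X : Finset (MvPolynomial ι ℤ)) (hX : ∀ f ∈ X, ∃ e, f.IsHomogeneous e) :
    ∃ (a m : ℕ) (T : Fin a → Fin a → Fin (m + 1) → ℤ), 0 < a ∧
      ∀ (κ : Type) [Field κ] [Finite κ],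
        (cone (segreSection T) κ : ℤ) * ((Nat.card κ : ℤ) - 1) ^ 2 =
          ((Nat.card κ : ℤ) ^ a - 1) ^ 2 * ((Nat.card κ : ℤ) ^ m - 1) +
          (Nat.card κ : ℤ) ^ m * ((Nat.card κ : ℤ) - 1) ^ 2 *
            cone (X : Set (MvPolynomial ι ℤ)) κ := by
  classical
  set D : ℕ := X.sup MvPolynomial.totalDegree + 1 with hDdef
  have hD : ∀ f ∈ X, f.totalDegree ≤ D := fun f hf =>
    (Finset.le_sup (f := MvPolynomial.totalDegree) hf).trans (Nat.le_succ _)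
  have hD0 : 0 < D := Nat.succ_pos _
  obtain ⟨T, hT⟩ := exists_tensor X hX hD hD0
  obtain ⟨i⟩ := ‹Nonempty ι›
  have hne : 0 < Fintype.card (Idx X D) :=
    Fintype.card_pos_iff.2 ⟨Sum.inl ⟨((fun _ => i, fun _ => i), (fun _ => i, fun _ => i)), rfl⟩⟩
  obtain ⟨m, hm⟩ : ∃ m, Fintype.card (Idx X D) = m + 1 := ⟨_, (Nat.succ_pred_eq_of_pos hne).symm⟩
  set a := Fintype.card (Fin D → ι) with ha
  have ha0 : 0 < a := Fintype.card_pos_iff.2 ⟨fun _ => i⟩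
  let e : (Fin D → ι) ≃ Fin a := Fintype.equivFin _
  let f : Idx X D ≃ Fin (m + 1) := Fintype.equivFinOfCardEq hm
  refine ⟨a, m, fun x y z => T (e.symm x) (e.symm y) (f.symm z), ha0, fun κ _ _ => ?_⟩
  have h1 := card_section (κ := κ) fun x y z => T (e.symm x) (e.symm y) (f.symm z)
  rw [card_reindex (κ := κ) e f T] at h1
  have h2 := card_tri (κ := κ) T hm
  have h3 := card_sol X hX hD0 T κ (hT κ)
  have hq : 1 ≤ Nat.card κ := Nat.card_pos
  have h4 : (cone (segreSection fun x y z => T (e.symm x) (e.symm y) (f.symm z)) κ : ℤ) *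
      ((Nat.card κ : ℤ) - 1) ^ 2 =
      (Nat.card {t : ((Fin D → ι) → κ) × ((Fin D → ι) → κ) × (Idx X D → κ) //
        t.1 ≠ 0 ∧ t.2.1 ≠ 0 ∧ t.2.2 ≠ 0 ∧ tri T t.1 t.2.1 t.2.2 = 0} : ℤ) := by
    rw [← h1]
    push_cast [Nat.cast_sub hq]
    ring
  rw [h4, h2, h3]
  push_cast [Nat.cast_sub hq]
  ring

/-- the number of points -/
lemma count_nat {c x q a m : ℕ} (hq : 1 < q)
    (h : (c : ℤ) * ((q : ℤ) - 1) ^ 2 = ((q : ℤ) ^ a - 1) ^ 2 * ((q : ℤ) ^ m - 1) +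
      (q : ℤ) ^ m * ((q : ℤ) - 1) ^ 2 * x) :
    c = (q - 1) * ((∑ j ∈ range a, q ^ j) ^ 2 * ∑ j ∈ range m, q ^ j) + q ^ m * x := by
  have hq0 : (q : ℤ) - 1 ≠ 0 := by
    have : (1 : ℤ) < q := by exact_mod_cast hq
    linarith
  have ga : ((q : ℤ) - 1) * ∑ j ∈ range a, (q : ℤ) ^ j = (q : ℤ) ^ a - 1 := mul_geom_sum _ a
  have gm : ((q : ℤ) - 1) * ∑ j ∈ range m, (q : ℤ) ^ j = (q : ℤ) ^ m - 1 := mul_geom_sum _ m
  have h4 : (c : ℤ) = ((q : ℤ) - 1) * ((∑ j ∈ range a, (q : ℤ) ^ j) ^ 2 *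
      ∑ j ∈ range m, (q : ℤ) ^ j) + (q : ℤ) ^ m * x := by
    refine mul_right_cancel₀ (pow_ne_zero 2 hq0) ?_
    rw [h, ← ga, ← gm]
    ring
  zify [hq.le]
  exact h4

end Pool.Agent.E8helper75.SG
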