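import Pool.Agent.E8helper75.SG.Defs
import Pool.Agent.E8helper75.SG.Count

set_option autoImplicit false

/-!
# Projective schemes as linear sections of Segre varieties
-/

namespace Pool.Agent.E8helper75.SG

open Finset

variable {ι : Type} [Fintype ι] [DecidableEq ι] {D : ℕ}

/-- the monomial of a tuple -/
def mon (I : Fin D → ι) : Multiset ι := ∑ j, ({I j} : Multiset ι)

/-- the value of the monomial -/
def pw {κ : Type} [Field κ] (x : ι → κ) (I : Fin D → ι) : κ := ∏ j, x (I j)

omit [Fintype ι] in
lemma mon_update (I : Fin D → ι) (j : Fin D) (a : ι) :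
    mon (Function.update I j a) + {I j} = mon I + {a} := by
  unfold mon
  have h1 : (fun x => ({Function.update I j a x} : Multiset ι)) =
      Function.update (fun x => ({I x} : Multiset ι)) j {a} := by
    funext x
    by_cases h : x = j
    · subst h
      simp
    · simp [h]
  rw [h1, sum_update_of_mem (mem_univ j)]
  have h2 : ∑ x, ({I x} : Multiset ι) = {I j} + ∑ x ∈ univ \ {j}, ({I x} : Multiset ι) := by
    rw [← sum_singleton (fun x => ({I x} : Multiset ι)) j, add_comm,
      sum_sdiff (subset_univ _)]
  rw [h2]
  abel

variable {κ : Type} [Field κ]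

omit [Fintype ι] [DecidableEq ι] in
lemma prod_mon (x : ι → κ) (I : Fin D → ι) : ((mon I).map x).prod = pw x I := by
  classical
  unfold mon pw
  have h1 : ∀ s : Finset (Fin D), ((∑ j ∈ s, ({I j} : Multiset ι)).map x).prod =
      ∏ j ∈ s, x (I j) := by
    intro s
    induction s using Finset.induction_on with
    | empty => simp
    | insert j s hj ih =>
      rw [sum_insert hj, prod_insert hj, Multiset.map_add, Multiset.prod_add, ih]
      simp
  exact h1 univ

omit [Fintype ι] [DecidableEq ι] in
lemma pw_smul (l : κ) (x : ι → κ) (I : Fin D → ι) : pw (l • x) I = l ^ D * pw x I := by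
  unfold pw
  simp only [Pi.smul_apply, smul_eq_mul]
  rw [prod_mul_distrib, prod_const, card_univ, Fintype.card_fin]

omit [Fintype ι] in
/-- tensors of rank one -/
lemma ver_surj (hD : 0 < D) (u : (Fin D → ι) → κ) (hu : u ≠ 0)
    (h : ∀ I J I' J' : Fin D → ι, mon I + mon J = mon I' + mon J' → u I * u J = u I' * u J') :
    ∃ (x : ι → κ) (c : κ), x ≠ 0 ∧ c ≠ 0 ∧ ∀ I, u I = c * pw x I := by
  classical
  obtain ⟨I0, hI0⟩ := Function.ne_iff.1 hu
  simp only [Pi.zero_apply] at hI0
  set j0 : Fin D := ⟨0, hD⟩ with hj0
  set i := I0 j0 with hi
  -- the constant tuple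
  have h1 : ∀ s : Finset (Fin D), u (fun j => if j ∈ s then i else I0 j) ≠ 0 := by
    intro s
    induction s using Finset.induction_on with
    | empty => simpa using hI0
    | insert j s hj ih =>
      set Is : Fin D → ι := fun j => if j ∈ s then i else I0 j with hIs
      have e1 : (fun k => if k ∈ insert j s then i else I0 k) = Function.update Is j i := by
        funext k
        by_cases hk : k = j
        · subst hk
          simp
        · simp [hIs, hk]
      rw [e1]
      have e2 : Is j0 = i := by
        simp only [hIs]
        split_ifs <;> rfl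
      have e3 := h Is Is (Function.update Is j i) (Function.update Is j0 (Is j)) (by
        have a1 := mon_update Is j i
        have a2 := mon_update Is j0 (Is j)
        rw [e2] at a2
        have a3 : mon (Function.update Is j i) + mon (Function.update Is j0 (Is j)) +
            ({Is j} + {i}) = mon Is + mon Is + ({Is j} + {i}) := by
          calc mon (Function.update Is j i) + mon (Function.update Is j0 (Is j)) +
              ({Is j} + {i}) = (mon (Function.update Is j i) + {Is j}) +
                (mon (Function.update Is j0 (Is j)) + {i}) := by abel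
            _ = (mon Is + {i}) + (mon Is + {Is j}) := by rw [a1, a2]
            _ = mon Is + mon Is + ({Is j} + {i}) := by abel
        exact (add_right_cancel a3).symm)
      intro h0
      rw [h0, zero_mul] at e3
      exact mul_ne_zero ih ih e3
  have hw := h1 univ
  simp only [mem_univ, if_true] at hw
  set ib : Fin D → ι := fun _ => i with hib
  set x : ι → κ := fun k => u (Function.update ib j0 k) / u ib with hx
  have hxi : x i = 1 := by
    have : Function.update ib j0 i = ib := by
      rw [Function.update_eq_self_iff]
    simp only [hx, this, div_self hw]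
  refine ⟨x, u ib, fun h0 => ?_, hw, fun I => ?_⟩
  · have := congrFun h0 i
    rw [hxi] at this
    exact one_ne_zero this
  · have h2 : ∀ s : Finset (Fin D), u (fun j => if j ∈ s then I j else i) =
        u ib * ∏ j ∈ s, x (I j) := by
      intro s
      induction s using Finset.induction_on with
      | empty => simp [hib]
      | insert j s hj ih =>
        set Is : Fin D → ι := fun j => if j ∈ s then I j else i with hIs
        have e1 : (fun k => if k ∈ insert j s then I k else i) = Function.update Is j (I j) := by
          funext k
          by_cases hk : k = j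
          · subst hk
            simp
          · simp [hIs, hk]
        rw [e1, prod_insert hj]
        have e2 : Is j = i := by
          simp only [hIs, if_neg hj]
        have e3 := h (Function.update Is j (I j)) ib Is (Function.update ib j0 (I j)) (by
          have a1 := mon_update Is j (I j)
          have a2 := mon_update ib j0 (I j)
          rw [e2] at a1
          have e4 : ib j0 = i := rfl
          rw [e4] at a2
          have a3 : mon (Function.update Is j (I j)) + mon ib + {i} =
              mon Is + mon (Function.update ib j0 (I j)) + {i} := by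
            calc mon (Function.update Is j (I j)) + mon ib + {i} =
                (mon (Function.update Is j (I j)) + {i}) + mon ib := by abel
              _ = mon Is + (mon ib + {I j}) := by rw [a1]; abel
              _ = _ := by rw [← a2]; abel
          exact add_right_cancel a3)
        have e5 : u (Function.update ib j0 (I j)) = u ib * x (I j) := by
          simp only [hx]
          field_simp
        rw [e5, ih] at e3
        have e6 : u (Function.update Is j (I j)) * u ib =
            (u ib * (x (I j) * ∏ j ∈ s, x (I j))) * u ib := by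
          rw [e3]
          ring
        exact mul_right_cancel₀ hw e6
    have h3 := h2 univ
    simpa [pw] using h3

omit [Fintype ι] [DecidableEq ι] in
lemma ver_inj (hD : 0 < D) {x x' : ι → κ} (hx : x ≠ 0) {c c' : κ} (hc : c ≠ 0) (hc' : c' ≠ 0)
    (h : ∀ I : Fin D → ι, c * pw x I = c' * pw x' I) :
    ∃ l : κˣ, x = (l : κ) • x' ∧ c * (l : κ) ^ D = c' := by
  classical
  obtain ⟨i, hi⟩ := Function.ne_iff.1 hx
  simp only [Pi.zero_apply] at hi
  have hconst : ∀ y : ι → κ, pw y (fun _ : Fin D => i) = y i ^ D := by
    intro y
    simp [pw]
  have h0 := h fun _ => i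
  rw [hconst, hconst] at h0
  have hi' : x' i ≠ 0 := by
    intro h1
    rw [h1, zero_pow hD.ne', mul_zero] at h0
    exact mul_ne_zero hc (pow_ne_zero _ hi) h0
  obtain ⟨d, rfl⟩ : ∃ d, D = d + 1 := ⟨D - 1, by omega⟩
  have hk : ∀ (y : ι → κ) (k : ι), pw y (Fin.cons k (fun _ : Fin d => i)) = y k * y i ^ d := by
    intro y k
    simp [pw, Fin.prod_univ_succ]
  refine ⟨Units.mk0 (x i / x' i) (div_ne_zero hi hi'), funext fun k => ?_, ?_⟩
  · have h1 := h (Fin.cons k fun _ => i)
    rw [hk, hk] at h1
    simp only [Units.val_mk0, Pi.smul_apply, smul_eq_mul]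
    -- c x_k x_i^d = c' x'_k x'_i^d, c x_i^(d+1) = c' x'_i^(d+1)
    have h2 : x k * x' i * (c * x i ^ d * x' i ^ d * c') = x i * x' k * (c * x i ^ d * x' i ^ d * c')
        := by
      have e1 : x k * x' i * (c * x i ^ d * x' i ^ d * c') =
          (c * (x k * x i ^ d)) * (c' * x' i ^ (d + 1)) := by ring
      have e2 : x i * x' k * (c * x i ^ d * x' i ^ d * c') =
          (c * x i ^ (d + 1)) * (c' * (x' k * x' i ^ d)) := by ring
      rw [e1, e2, h1, h0]
      ring
    have h3 := mul_right_cancel₀ (mul_ne_zero (mul_ne_zero (mul_ne_zero hc (pow_ne_zero _ hi))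
      (pow_ne_zero _ hi')) hc') h2
    field_simp
    exact h3
  · simp only [Units.val_mk0]
    rw [div_pow, ← mul_div_assoc, h0, mul_div_assoc, div_self (pow_ne_zero _ hi'), mul_one]

/-- every monomial of degree `2 D` is a product of two tuples -/
lemma exists_tuples (m : ι →₀ ℕ) (hm : m.degree = D + D) :
    ∃ I J : Fin D → ι, ∀ (κ : Type) [Field κ] (x : ι → κ), pw x I * pw x J = ∏ i, x i ^ m i := by
  obtain ⟨l, hl⟩ := Quot.exists_rep (Finsupp.toMultiset m)
  have hl' : (l : Multiset ι) = Finsupp.toMultiset m := hl
  have hlen : l.length = D + D := by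
    rw [← Multiset.coe_card, hl', Finsupp.card_toMultiset, ← hm]
    rfl
  set f : Fin (D + D) → ι := fun j => l.get (Fin.cast hlen.symm j) with hf
  refine ⟨fun j => f (Fin.castAdd D j), fun j => f (Fin.natAdd D j), fun κ _ x => ?_⟩
  unfold pw
  rw [← Fin.prod_univ_add (fun j => x (f j))]
  have h1 : ∏ j, x (f j) = (l.map x).prod := by
    rw [← List.prod_ofFn]
    congr 1
    have h2 : l.map x = List.ofFn (fun j : Fin l.length => x (l.get j)) := by
      conv_lhs => rw [← List.ofFn_get l, List.map_ofFn]
      rfl
    rw [h2, List.ofFn_congr hlen]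
  rw [h1]
  have h2 : (l.map x).prod = ((Finsupp.toMultiset m).map x).prod := by
    rw [← hl', Multiset.map_coe, Multiset.prod_coe]
  rw [h2, Finset.prod_multiset_map_count, Finsupp.toFinset_toMultiset]
  rw [← Finset.prod_subset (Finset.subset_univ m.support) (f := fun i => x i ^ m i)]
  · refine prod_congr rfl fun i _ => ?_
    rw [Finsupp.count_toMultiset]
  · intro i _ hi
    rw [Finsupp.notMem_support_iff.1 hi, pow_zero]

end Pool.Agent.E8helper75.SG
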